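import Pool.Agent.Lib_helper95.RC.Defs
import Pool.Agent.Lib_helper33.Renyi.Align

/-! BLOCK ALIGN + RED, `tn_sig`, `form_facts`. -/

open scoped BigOperators ComplexOrder Kronecker MatrixOrder
open MeasureTheory Set Matrix

namespace Pool.Agent.RC

variable {ι κ : Type} [Fintype ι] [DecidableEq ι] [Fintype κ] [DecidableEq κ]

namespace AR

lemma exists_diag_pos {A : Matrix ι ι ℂ} (hA : A.PosDef) :
    ∃ (U : Matrix ι ι ℂ) (a : ι → ℝ), Uᴴ * U = 1 ∧ U * Uᴴ = 1 ∧ (∀ i, 0 < a i) ∧
      A = U * dg a * Uᴴ := by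
  refine ⟨(hA.isHermitian.eigenvectorUnitary : Matrix ι ι ℂ), hA.isHermitian.eigenvalues,
    ?_, ?_, fun i => hA.eigenvalues_pos i, ?_⟩
  · have := Unitary.coe_star_mul_self hA.isHermitian.eigenvectorUnitary
    simpa [star_eq_conjTranspose] using this
  · have := Unitary.coe_mul_star_self hA.isHermitian.eigenvectorUnitary
    simpa [star_eq_conjTranspose] using this
  · conv_lhs => rw [hA.isHermitian.spectral_theorem, Unitary.conjStarAlgAut_apply]
    rfl

lemma Res_conj {U : Matrix ι ι ℂ} (h : Uᴴ * U = 1) (h' : U * Uᴴ = 1) (A : Matrix ι ι ℂ)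
    (r : ℝ) : Res (U * A * Uᴴ) r = U * Res A r * Uᴴ := by
  unfold Res
  have e : U * A * Uᴴ + (r : ℂ) • (1 : Matrix ι ι ℂ) = U * (A + (r : ℂ) • (1 : Matrix ι ι ℂ)) * Uᴴ := by
    rw [Matrix.mul_add, Matrix.add_mul]
    congr 1
    rw [Matrix.mul_smul, Matrix.smul_mul, Matrix.mul_one, h']
  have e1 : U⁻¹ = Uᴴ := inv_eq_left_inv h
  have e2 : (Uᴴ)⁻¹ = U := inv_eq_left_inv h'
  rw [e, Matrix.mul_inv_rev, Matrix.mul_inv_rev, e1, e2, Matrix.mul_assoc]

lemma conj_pow {U : Matrix ι ι ℂ} (h : Uᴴ * U = 1) (h' : U * Uᴴ = 1) (X : Matrix ι ι ℂ)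
    (n : ℕ) : (U * X * Uᴴ) ^ n = U * X ^ n * Uᴴ := by
  induction n with
  | zero => simp [h']
  | succ n ih =>
    rw [pow_succ, ih, pow_succ]
    calc U * X ^ n * Uᴴ * (U * X * Uᴴ) = U * X ^ n * (Uᴴ * U) * X * Uᴴ := by
          simp only [Matrix.mul_assoc]
      _ = _ := by rw [h, Matrix.mul_one]; simp only [Matrix.mul_assoc]

lemma tn_conj {U : Matrix ι ι ℂ} (h : Uᴴ * U = 1) (h' : U * Uᴴ = 1) (A D : Matrix ι ι ℂ)
    (n : ℕ) (r : ℝ) : tn (U * A * Uᴴ) (U * D * Uᴴ) n r = tn A D n r := by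
  unfold tn
  rw [Res_conj h h']
  have e : U * Res A r * Uᴴ * (U * D * Uᴴ) = U * (Res A r * D) * Uᴴ := by
    calc U * Res A r * Uᴴ * (U * D * Uᴴ) = U * Res A r * (Uᴴ * U) * D * Uᴴ := by
          simp only [Matrix.mul_assoc]
      _ = _ := by rw [h, Matrix.mul_one]; simp only [Matrix.mul_assoc]
  rw [e, conj_pow h h', Matrix.mul_assoc, trace_mul_comm, Matrix.mul_assoc, h, Matrix.mul_one]

lemma Res_dg {a : ι → ℝ} {r : ℝ} (h : ∀ i, 0 < a i + r) :
    Res (dg a) r = dg (fun i => (a i + r)⁻¹) := by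
  unfold Res dg
  refine inv_eq_right_inv ?_
  rw [show ((r : ℂ) • (1 : Matrix ι ι ℂ)) = Matrix.diagonal (fun _ => (r : ℂ)) by
    rw [← diagonal_one, ← diagonal_smul]; congr 1; ext i; simp, diagonal_add,
    diagonal_mul_diagonal, ← diagonal_one]
  congr 1
  ext i
  have h1 : ((a i : ℂ) + (r : ℂ)) = ((a i + r : ℝ) : ℂ) := by push_cast; rfl
  rw [h1, ← Complex.ofReal_mul, mul_inv_cancel₀ (h i).ne', Complex.ofReal_one]

open Pool.Agent.Lib_helper33.Renyi in
lemma tn_dg {a : ι → ℝ} (D : Matrix ι ι ℂ) {r : ℝ} (h : ∀ i, 0 < a i + r) {n : ℕ}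
    (hn : n ≠ 0) : tn (dg a) D n r = trn (Hs a D r) n := by
  have e : Hs a D r = sand (fun i => (a i + r)⁻¹) D := by
    ext i j
    simp only [Hs, sand, Matrix.of_apply]
    rw [Real.sqrt_inv, Real.sqrt_inv, ← mul_inv, add_comm (a i), add_comm (a j)]
    push_cast
    rw [div_eq_mul_inv, mul_comm]
  rw [e, trn_sand _ (fun j => (inv_pos.mpr (h j)).le) _ hn]
  unfold tn trn
  rw [Res_dg h]
  rfl

open Pool.Agent.Lib_helper33.Renyi in
lemma lam_eq (p q : ℝ) (z : ℂ) : lam p q z = lpos p q (Complex.normSq z) := by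
  unfold lam lpos disc
  rw [Complex.normSq_eq_norm_sq]

open Pool.Agent.Lib_helper33.Renyi in
lemma form_diag {A : Matrix ι ι ℂ} {U : Matrix ι ι ℂ} {a : ι → ℝ} (h : Uᴴ * U = 1)
    (h' : U * Uᴴ = 1) (hA : A = U * dg a * Uᴴ) (v w : ι → ℂ) {r : ℝ}
    (hr : ∀ i, 0 < a i + r) :
    form A v w r = gbe a (Uᴴ *ᵥ v) (Uᴴ *ᵥ w) r 1 := by
  unfold form
  rw [hA, Res_conj h h', Res_dg hr, Matrix.mul_assoc, ← mulVec_mulVec, ← mulVec_mulVec,
    dotProduct_mulVec]
  have e : star v ᵥ* U = star (Uᴴ *ᵥ v) := by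
    rw [star_mulVec, conjTranspose_conjTranspose]
  rw [e]
  unfold gbe dotProduct dg
  refine Finset.sum_congr rfl fun i _ => ?_
  rw [mulVec_diagonal, Pi.star_apply, Complex.star_def]
  push_cast
  rw [mul_one, add_comm (r : ℂ)]
  ring

open Pool.Agent.Lib_helper33.Renyi in
omit [DecidableEq ι] in
lemma gbe_self (a : ι → ℝ) (v : ι → ℂ) (s t : ℝ) : gbe a v v s t = (gal a v s t : ℂ) := by
  unfold gbe gal
  push_cast
  refine Finset.sum_congr rfl fun i _ => ?_
  rw [← Complex.normSq_eq_conj_mul_self]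

open Pool.Agent.Lib_helper33.Renyi in
omit [DecidableEq ι] in
lemma gal_scale (a : ι → ℝ) (v : ι → ℂ) (r b : ℝ) (hb : 0 < b) :
    gal a v r b = b⁻¹ * gal a v (r / b) 1 := by
  unfold gal
  rw [Finset.mul_sum]
  refine Finset.sum_congr rfl fun i _ => ?_
  have e : r + a i * b = b * (r / b + a i * 1) := by field_simp
  rw [e]
  rw [div_mul_eq_div_div, div_right_comm]
  ring

open Pool.Agent.Lib_helper33.Renyi in
omit [DecidableEq ι] in
lemma gbe_scale (a : ι → ℝ) (v w : ι → ℂ) (r b : ℝ) (hb : 0 < b) :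
    gbe a v w r b = ((b⁻¹ : ℝ) : ℂ) * gbe a v w (r / b) 1 := by
  unfold gbe
  rw [Finset.mul_sum]
  refine Finset.sum_congr rfl fun i _ => ?_
  have e : r + a i * b = b * (r / b + a i * 1) := by field_simp
  rw [e]
  push_cast
  rw [div_mul_eq_div_div, div_right_comm]
  ring

open Pool.Agent.Lib_helper33.Renyi in
lemma lpos_scale {c : ℝ} (hc : 0 < c) (p q nb : ℝ) :
    lpos (c * p) (c * q) (c ^ 2 * nb) = c * lpos p q nb := by
  unfold lpos disc
  have e : (c * p + c * q) ^ 2 - 4 * (c ^ 2 * nb) = c ^ 2 * ((p + q) ^ 2 - 4 * nb) := by ring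
  rw [e, Real.sqrt_mul (sq_nonneg c), Real.sqrt_sq hc.le]
  ring

open Pool.Agent.Lib_helper33.Renyi in
lemma lam_bridge {A : Matrix ι ι ℂ} {U : Matrix ι ι ℂ} {a : ι → ℝ} (h : Uᴴ * U = 1)
    (h' : U * Uᴴ = 1) (ha : ∀ i, 0 < a i) (hA : A = U * dg a * Uᴴ) (v w : ι → ℂ) {r b : ℝ}
    (hr : 0 < r) (hb : 0 < b) :
    Pool.Agent.Lib_helper33.Renyi.lam a (Uᴴ *ᵥ v) (Uᴴ *ᵥ w) r b =
      b⁻¹ * Pool.Agent.RC.lam (form A v v (r / b)).re (form A w w (r / b)).re
        (form A v w (r / b)) := by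
  have hpos : ∀ i, 0 < a i + r / b := fun i => add_pos (ha i) (div_pos hr hb)
  rw [lam_eq, form_diag h h' hA v v hpos, form_diag h h' hA w w hpos, form_diag h h' hA v w hpos,
    gbe_self, gbe_self, Complex.ofReal_re, Complex.ofReal_re]
  unfold Pool.Agent.Lib_helper33.Renyi.lam
  rw [gal_scale _ _ _ _ hb, gal_scale _ _ _ _ hb, gbe_scale _ _ _ _ _ hb, Complex.normSq_mul,
    Complex.normSq_ofReal, ← pow_two, lpos_scale (inv_pos.mpr hb)]

open Pool.Agent.Lib_helper33.Renyi in
lemma lam_bridge' {A : Matrix ι ι ℂ} {U : Matrix ι ι ℂ} {a : ι → ℝ} (h : Uᴴ * U = 1)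
    (h' : U * Uᴴ = 1) (ha : ∀ i, 0 < a i) (hA : A = U * dg a * Uᴴ) (v w : ι → ℂ) {r b : ℝ}
    (hr : 0 < r) (hb : 0 < b) :
    Pool.Agent.Lib_helper33.Renyi.lam a (Uᴴ *ᵥ w) (Uᴴ *ᵥ v) r b =
      b⁻¹ * Pool.Agent.RC.lam (form A w w (r / b)).re (form A v v (r / b)).re
        (form A v w (r / b)) := by
  have hpos : ∀ i, 0 < a i + r / b := fun i => add_pos (ha i) (div_pos hr hb)
  rw [lam_bridge h h' ha hA w v hr hb, lam_eq, lam_eq, form_diag h h' hA w v hpos,
    form_diag h h' hA v w hpos, gbe_swap, Complex.normSq_conj]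

end AR

open AR

open Pool.Agent.Lib_helper33.Renyi in
theorem align_red (A : Matrix ι ι ℂ) (hA : A.PosDef) (v w : ι → ℂ) (b : κ → ℝ)
    (hb : ∀ k, 0 < b k) (E : Matrix κ κ ℂ) (hE : E.IsHermitian) (n : ℕ) (he : Even n)
    (hn : 0 < n) (r : ℝ) (hr : 0 < r) :
    (((dg (fun k => (b k)⁻¹ * Pool.Agent.RC.lam (form A v v (r / b k)).re
        (form A w w (r / b k)).re (form A v w (r / b k))) * E) ^ n).trace).re +
      (((dg (fun k => (b k)⁻¹ * Pool.Agent.RC.lam (form A w w (r / b k)).re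
        (form A v v (r / b k)).re (form A v w (r / b k))) * E) ^ n).trace).re ≤
    tn (A ⊗ₖ dg b) ((vecMulVec v (star v) - vecMulVec w (star w)) ⊗ₖ E) n r := by
  obtain ⟨U, a, h, h', ha, hAU⟩ := exists_diag_pos hA
  have key := align (fun i => (ha i).le) (Uᴴ *ᵥ v) (Uᴴ *ᵥ w) (fun j => (hb j).le) hE hr he hn.ne'
  have e1 : ∀ k, Pool.Agent.Lib_helper33.Renyi.lam a (Uᴴ *ᵥ v) (Uᴴ *ᵥ w) r (b k) =
      (b k)⁻¹ * Pool.Agent.RC.lam (form A v v (r / b k)).re
        (form A w w (r / b k)).re (form A v w (r / b k)) := fun k =>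
    lam_bridge h h' ha hAU v w hr (hb k)
  have e2 : ∀ k, Pool.Agent.Lib_helper33.Renyi.lam a (Uᴴ *ᵥ w) (Uᴴ *ᵥ v) r (b k) =
      (b k)⁻¹ * Pool.Agent.RC.lam (form A w w (r / b k)).re
        (form A v v (r / b k)).re (form A v w (r / b k)) := fun k =>
    lam_bridge' h h' ha hAU v w hr (hb k)
  simp only [e1, e2] at key
  refine key.trans (le_of_eq ?_)
  -- unitary on the product
  set W : Matrix (ι × κ) (ι × κ) ℂ := U ⊗ₖ (1 : Matrix κ κ ℂ) with hW
  have hW1 : Wᴴ * W = 1 := by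
    rw [hW, conjTranspose_kronecker, ← mul_kronecker_mul, h, conjTranspose_one, Matrix.one_mul,
      one_kronecker_one]
  have hW2 : W * Wᴴ = 1 := by
    rw [hW, conjTranspose_kronecker, ← mul_kronecker_mul, h', conjTranspose_one, Matrix.one_mul,
      one_kronecker_one]
  have hta : ∀ p : ι × κ, 0 < ta a b p + r := fun p =>
    add_pos (mul_pos (ha p.1) (hb p.2)) hr
  rw [← tn_dg _ hta hn.ne', ← tn_conj hW1 hW2]
  congr 1
  · -- A part
    have : dg (ta a b) = dg a ⊗ₖ dg b := by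
      unfold dg ta
      rw [diagonal_kronecker_diagonal]
      congr 1
      ext p
      push_cast
      rfl
    rw [this, hW, conjTranspose_kronecker, ← mul_kronecker_mul, ← mul_kronecker_mul, ← hAU,
      conjTranspose_one, Matrix.one_mul, Matrix.mul_one]
  · have e3 : tD (vecMulVec (Uᴴ *ᵥ v) (star (Uᴴ *ᵥ v)) - vecMulVec (Uᴴ *ᵥ w) (star (Uᴴ *ᵥ w))) E =
        (Uᴴ * (vecMulVec v (star v) - vecMulVec w (star w)) * U) ⊗ₖ E := by
      have e4 : ∀ x : ι → ℂ, vecMulVec (Uᴴ *ᵥ x) (star (Uᴴ *ᵥ x)) =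
          Uᴴ * vecMulVec x (star x) * U := by
        intro x
        rw [mul_vecMulVec, vecMulVec_mul, star_mulVec, conjTranspose_conjTranspose]
      rw [Matrix.mul_sub, Matrix.sub_mul, ← e4, ← e4]
      rfl
    rw [e3, hW, conjTranspose_kronecker, ← mul_kronecker_mul, ← mul_kronecker_mul,
      conjTranspose_one, Matrix.one_mul, Matrix.mul_one]
    congr 1
    calc U * (Uᴴ * (vecMulVec v (star v) - vecMulVec w (star w)) * U) * Uᴴ
        = (U * Uᴴ) * (vecMulVec v (star v) - vecMulVec w (star w)) * (U * Uᴴ) := by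
          simp only [Matrix.mul_assoc]
      _ = _ := by rw [h', Matrix.one_mul, Matrix.mul_one]

namespace AR

lemma form_star {A : Matrix ι ι ℂ} {U : Matrix ι ι ℂ} {a : ι → ℝ} (h : Uᴴ * U = 1)
    (h' : U * Uᴴ = 1) (hA : A = U * dg a * Uᴴ) (v w : ι → ℂ) {r : ℝ}
    (hr : ∀ i, 0 < a i + r) : form A w v r = star (form A v w r) := by
  rw [form_diag h h' hA w v hr, form_diag h h' hA v w hr,
    Pool.Agent.Lib_helper33.Renyi.gbe_swap]
  rfl

open Pool.Agent.Lib_helper33.Renyi in
lemma form_self_pos {A : Matrix ι ι ℂ} {U : Matrix ι ι ℂ} {a : ι → ℝ} (h : Uᴴ * U = 1)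
    (h' : U * Uᴴ = 1) (hA : A = U * dg a * Uᴴ) {v : ι → ℂ} (hv : v ≠ 0) {r : ℝ}
    (hr : ∀ i, 0 < a i + r) : 0 < (form A v v r).re := by
  rw [form_diag h h' hA v v hr, gbe_self, Complex.ofReal_re]
  have hv' : Uᴴ *ᵥ v ≠ 0 := by
    intro h0
    apply hv
    have : U *ᵥ (Uᴴ *ᵥ v) = v := by rw [mulVec_mulVec, h', one_mulVec]
    rw [← this, h0, mulVec_zero]
  obtain ⟨i, hi⟩ := Function.ne_iff.mp hv'
  unfold gal
  refine Finset.sum_pos' (fun j _ => div_nonneg (Complex.normSq_nonneg _) ?_) ⟨i, Finset.mem_univ _, ?_⟩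
  · have := hr j; linarith
  · refine div_pos (Complex.normSq_pos.mpr hi) ?_
    have := hr i; linarith

lemma form_expand (A : Matrix ι ι ℂ) (v w : ι → ℂ) (r : ℝ) (c : ℂ) :
    form A (v - c • w) (v - c • w) r = form A v v r - c * form A v w r - star c * form A w v r
      + star c * c * form A w w r := by
  unfold form
  simp only [star_sub, star_smul, sub_dotProduct, smul_dotProduct, mulVec_sub, mulVec_smul,
    dotProduct_sub, dotProduct_smul, smul_eq_mul]
  ring

end AR

/-- facts on the forms; the last one is strict Cauchy-Schwarz -/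
theorem form_facts (A : Matrix ι ι ℂ) (hA : A.PosDef) (v w : ι → ℂ) (r : ℝ) (hr : 0 ≤ r) :
    0 ≤ (form A v v r).re ∧ (form A v v r).im = 0 ∧ form A w v r = star (form A v w r) ∧
      ‖form A v w r‖ ^ 2 ≤ (form A v v r).re * (form A w w r).re ∧
      (LinearIndependent ℂ ![v, w] → 0 < (form A v v r).re ∧ 0 < (form A w w r).re ∧
        ‖form A v w r‖ ^ 2 < (form A v v r).re * (form A w w r).re) := by
  obtain ⟨U, a, h, h', ha, hAU⟩ := exists_diag_pos hA
  have hpos : ∀ i, 0 < a i + r := fun i => by have := ha i; linarith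
  have him : ∀ x : ι → ℂ, (form A x x r).im = 0 := by
    intro x
    rw [form_diag h h' hAU x x hpos, gbe_self, Complex.ofReal_im]
  have hnn : ∀ x : ι → ℂ, 0 ≤ (form A x x r).re := by
    intro x
    by_cases hx : x = 0
    · subst hx; simp [form]
    · exact (form_self_pos h h' hAU hx hpos).le
  have hself : ∀ x : ι → ℂ, form A x x r = ((form A x x r).re : ℂ) := fun x =>
    Complex.ext (by simp) (by simp [him x])
  have hst : form A w v r = star (form A v w r) := form_star h h' hAU v w hpos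
  have hmain : ∀ (_ : 0 < (form A w w r).re), (form A (v - (form A w v r / form A w w r) • w)
      (v - (form A w v r / form A w w r) • w) r).re =
      (form A v v r).re - ‖form A v w r‖ ^ 2 / (form A w w r).re := by
    intro hw
    have hw' : form A w w r ≠ 0 := by
      intro h0; rw [h0] at hw; simp at hw
    have e1 : form A (v - (form A w v r / form A w w r) • w)
      (v - (form A w v r / form A w w r) • w) r =
      form A v v r - (form A v w r * star (form A v w r)) / form A w w r := by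
      rw [form_expand, hst]
      have e2 : star (star (form A v w r) / form A w w r) = form A v w r / form A w w r := by
        rw [star_div₀, star_star]
        congr 1
        rw [hself w]
        exact Complex.conj_ofReal _
      rw [e2]
      field_simp
      ring
    rw [e1]
    have e3 : form A v w r * star (form A v w r) = ((‖form A v w r‖ ^ 2 : ℝ) : ℂ) := by
      rw [Complex.star_def, Complex.mul_conj, Complex.normSq_eq_norm_sq]
    rw [e3, Complex.sub_re]
    congr 1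
    conv_lhs => rw [hself w]
    rw [← Complex.ofReal_div, Complex.ofReal_re]
  refine ⟨hnn v, him v, hst, ?_, ?_⟩
  · by_cases hw0 : w = 0
    · subst hw0; simp [form]
    · have hw := form_self_pos h h' hAU hw0 hpos
      have h1 := hnn (v - (form A w v r / form A w w r) • w)
      rw [hmain hw, sub_nonneg, div_le_iff₀ hw] at h1
      exact h1
  · intro hli
    have hv0 : v ≠ 0 := by
      have := hli.ne_zero 0
      simpa using this
    have hw0 : w ≠ 0 := by
      have := hli.ne_zero 1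
      simpa using this
    have hw := form_self_pos h h' hAU hw0 hpos
    refine ⟨form_self_pos h h' hAU hv0 hpos, hw, ?_⟩
    have hu : v - (form A w v r / form A w w r) • w ≠ 0 := by
      intro h0
      rw [LinearIndependent.pair_iff] at hli
      have := hli 1 (-(form A w v r / form A w w r)) (by
        rw [one_smul, neg_smul, ← sub_eq_add_neg]; exact h0)
      exact one_ne_zero this.1
    have h1 := form_self_pos h h' hAU hu hpos
    rw [hmain hw, sub_pos, div_lt_iff₀ hw] at h1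
    exact h1

open Pool.Agent.Lib_helper33.Renyi in
/-- `tn` of `v v* - w w*` itself. -/
theorem tn_sig (A : Matrix ι ι ℂ) (hA : A.PosDef) (v w : ι → ℂ) (n : ℕ) (hn : 0 < n)
    (he : Even n) (r : ℝ) (hr : 0 < r) :
    tn A (vecMulVec v (star v) - vecMulVec w (star w)) n r =
      Pool.Agent.RC.lam (form A v v r).re (form A w w r).re (form A v w r) ^ n
        + Pool.Agent.RC.lam (form A w w r).re (form A v v r).re (form A v w r) ^ n := by
  obtain ⟨hv, hvi, hst, hcs, -⟩ := form_facts A hA v w r hr.le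
  obtain ⟨hw, hwi, -, -, -⟩ := form_facts A hA w v r hr.le
  have hself : ∀ x : ι → ℂ, form A x x r = ((form A x x r).re : ℂ) := fun x =>
    Complex.ext (by simp) (by simp [(form_facts A hA x x r hr.le).2.1])
  obtain ⟨m, hm1, hm2⟩ := exists_m2 (form A v v r).re (form A w w r).re (form A v w r) hv hw
    (by rw [Complex.normSq_eq_norm_sq]; exact hcs)
  rw [← lam_eq, ← lam_eq] at hm2
  set V : Matrix ι (Fin 2) ℂ := Matrix.of fun i e => ![v i, w i] e with hV
  have hD : vecMulVec v (star v) - vecMulVec w (star w) = V * J2 * Vᴴ := by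
    ext i j
    simp [Matrix.mul_apply, Fin.sum_univ_two, V, J2, vecMulVec_apply]
    ring
  have hR : Vᴴ * Res A r * V = m * mᴴ := by
    rw [hm1]
    have e : ∀ (x y : ι → ℂ) , ∑ j, (∑ i, star (x i) * Res A r i j) * y j = form A x y r := by
      intro x y
      unfold form
      rw [dotProduct_mulVec]
      rfl
    ext p q
    rw [Matrix.mul_apply]
    simp only [Matrix.mul_apply, conjTranspose_apply]
    fin_cases p <;> fin_cases q
    · simp only [V, Matrix.of_apply]
      simp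
      rw [← hself v]
      simpa using e v v
    · simp only [V, Matrix.of_apply]
      simp
      simpa using e v w
    · simp only [V, Matrix.of_apply]
      simp
      rw [show (starRingEnd ℂ) (form A v w r) = form A w v r from hst.symm]
      simpa using e w v
    · simp only [V, Matrix.of_apply]
      simp
      rw [← hself w]
      simpa using e w w
  have e1 : tn A (vecMulVec v (star v) - vecMulVec w (star w)) n r = trn (mᴴ * J2 * m) n := by
    unfold tn
    change trn (Res A r * (vecMulVec v (star v) - vecMulVec w (star w))) n = _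
    rw [hD, show Res A r * (V * J2 * Vᴴ) = (Res A r * V * J2) * Vᴴ by
      simp only [Matrix.mul_assoc], trn_cycle _ _ hn.ne',
      show Vᴴ * (Res A r * V * J2) = (Vᴴ * Res A r * V) * J2 by simp only [Matrix.mul_assoc], hR,
      Matrix.mul_assoc, trn_cycle _ _ hn.ne']
  have e2 : (mᴴ * J2 * m) = Matrix.diagonal ![
      ((Pool.Agent.RC.lam (form A v v r).re (form A w w r).re (form A v w r) : ℝ) : ℂ),
      -((Pool.Agent.RC.lam (form A w w r).re (form A v v r).re (form A v w r) : ℝ) : ℂ)] := by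
    rw [hm2]
    ext i j
    fin_cases i <;> fin_cases j <;> simp
  rw [e1, e2]
  unfold trn
  rw [diagonal_pow, trace_diagonal, Fin.sum_univ_two]
  simp only [Pi.pow_apply, Matrix.cons_val_zero, Matrix.cons_val_one, he.neg_pow]
  rw [← Complex.ofReal_pow, ← Complex.ofReal_pow, Complex.add_re, Complex.ofReal_re,
    Complex.ofReal_re]

end Pool.Agent.RC
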