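import Pool.Agent.Lib_helper33.RC_Bridge

/-!
# MP_859019_mp: families of pairs that satisfy `FlaggedRankTwo`
-/

set_option autoImplicit false
set_option linter.unusedSectionVars false

open scoped BigOperators ComplexOrder Kronecker MatrixOrder
open Matrix Polynomial

namespace Pool.Agent.Lib_helper98.Renyi

variable {b : Type} [Fintype b] [DecidableEq b]

theorem vecMulVec_scale (u : b → ℂ) {r : ℝ} (hr : 0 ≤ r) :
    vecMulVec (((Real.sqrt r : ℝ) : ℂ) • u) (star (((Real.sqrt r : ℝ) : ℂ) • u)) =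
      (r : ℂ) • vecMulVec u (star u) := by
  have hs : ((Real.sqrt r : ℝ) : ℂ) * ((Real.sqrt r : ℝ) : ℂ) = (r : ℂ) := by
    rw [← Complex.ofReal_mul, Real.mul_self_sqrt hr]
  ext i j
  simp only [Matrix.smul_apply, vecMulVec_apply, Pi.smul_apply, Pi.star_apply, smul_eq_mul,
    star_mul', RCLike.star_def, Complex.conj_ofReal]
  rw [← hs]
  ring

/-- A real multiple of a rank-one projection is of the form `v v* - w w*`. -/
theorem sig11_smul_vecMulVec (u : b → ℂ) (r : ℝ) :
    ∃ v w : b → ℂ, (r : ℂ) • vecMulVec u (star u) = vecMulVec v (star v) - vecMulVec w (star w) := by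
  rcases le_total 0 r with h | h
  · refine ⟨((Real.sqrt r : ℝ) : ℂ) • u, 0, ?_⟩
    rw [vecMulVec_scale u h]
    simp
  · refine ⟨0, ((Real.sqrt (-r) : ℝ) : ℂ) • u, ?_⟩
    rw [vecMulVec_scale u (neg_nonneg.2 h)]
    simp

/-- `U diag(c) U*` as a sum of rank-one matrices. -/
theorem conj_diagonal_eq_sum (U : Matrix b b ℂ) (c : b → ℝ) :
    U * diagonal (fun i => (c i : ℂ)) * Uᴴ =
      ∑ k, (c k : ℂ) • vecMulVec (fun i => U i k) (star fun i => U i k) := by
  ext i j
  rw [Matrix.mul_apply, Matrix.sum_apply]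
  refine Finset.sum_congr rfl fun k _ => ?_
  simp only [Matrix.mul_diagonal, Matrix.conjTranspose_apply, Matrix.smul_apply, vecMulVec_apply,
    Pi.star_apply, smul_eq_mul]
  ring

/-- A Hermitian matrix of trace zero and rank at most two is of the form `v v* - w w*`. -/
theorem sig11_of_rank_le_two {M : Matrix b b ℂ} (hM : M.IsHermitian) (h0 : M.trace = 0)
    (hr : M.rank ≤ 2) :
    ∃ v w : b → ℂ, M = vecMulVec v (star v) - vecMulVec w (star w) := by
  classical
  have hsp := hM.spectral_theorem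
  rw [Unitary.conjStarAlgAut_apply] at hsp
  have hcard := hM.rank_eq_card_non_zero_eigs
  have hsum : ∑ i, hM.eigenvalues i = 0 := by
    have := hM.trace_eq_sum_eigenvalues
    rw [h0] at this
    have h2 : ((∑ i, hM.eigenvalues i : ℝ) : ℂ) = 0 := by
      rw [this]; push_cast; rfl
    exact_mod_cast h2
  set c := hM.eigenvalues with hc
  set U : Matrix b b ℂ := (hM.eigenvectorUnitary : Matrix b b ℂ) with hU
  have hM2 : M = ∑ k, (c k : ℂ) • vecMulVec (fun i => U i k) (star fun i => U i k) := by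
    rw [← conj_diagonal_eq_sum]
    exact hsp
  by_cases hall : ∀ i, c i = 0
  · refine ⟨0, 0, ?_⟩
    rw [hM2]
    simp [hall]
  · push Not at hall
    obtain ⟨k, hk⟩ := hall
    obtain ⟨p, hp⟩ : ∃ p, 0 < c p := by
      by_contra hcon
      push Not at hcon
      have : ∑ i, c i < 0 := by
        apply Finset.sum_neg' (fun i _ => hcon i) ⟨k, Finset.mem_univ k, ?_⟩
        exact lt_of_le_of_ne (hcon k) hk
      linarith
    obtain ⟨q, hq⟩ : ∃ q, c q < 0 := by
      by_contra hcon
      push Not at hcon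
      have : 0 < ∑ i, c i := by
        apply Finset.sum_pos' (fun i _ => hcon i) ⟨k, Finset.mem_univ k, ?_⟩
        exact lt_of_le_of_ne (hcon k) (Ne.symm hk)
      linarith
    have hpq : p ≠ q := by
      rintro rfl
      linarith
    have hzero : ∀ i, i ≠ p → i ≠ q → c i = 0 := by
      intro i hip hiq
      by_contra hi
      have h3 : ({p, q, i} : Finset b) ⊆ Finset.univ.filter fun i => c i ≠ 0 := by
        intro x hx
        simp only [Finset.mem_insert, Finset.mem_singleton] at hx
        rcases hx with rfl | rfl | rfl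
        · simpa using hp.ne'
        · simpa using hq.ne
        · simpa using hi
      have h4 := Finset.card_le_card h3
      have h5 : ({p, q, i} : Finset b).card = 3 := by
        rw [Finset.card_insert_of_notMem, Finset.card_insert_of_notMem, Finset.card_singleton]
        · simpa using Ne.symm hiq
        · simp only [Finset.mem_insert, Finset.mem_singleton, not_or]
          exact ⟨hpq, Ne.symm hip⟩
      rw [Fintype.card_subtype] at hcard
      omega
    refine ⟨((Real.sqrt (c p) : ℝ) : ℂ) • (fun i => U i p),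
      ((Real.sqrt (-c q) : ℝ) : ℂ) • (fun i => U i q), ?_⟩
    rw [vecMulVec_scale _ hp.le, vecMulVec_scale _ (by linarith), hM2]
    rw [← Finset.add_sum_erase _ _ (Finset.mem_univ p),
      ← Finset.add_sum_erase _ _ (Finset.mem_erase.2 ⟨Ne.symm hpq, Finset.mem_univ q⟩),
      Finset.sum_eq_zero]
    · push_cast
      rw [add_zero, neg_smul, sub_neg_eq_add]
    · intro i hi
      simp only [Finset.mem_erase, Finset.mem_univ, and_true] at hi
      rw [hzero i hi.2 hi.1]
      simp

/-- Every pair of density operators whose difference has rank at most two. -/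
theorem flagged_of_rank_le_two {σ : Fin 2 → Matrix b b ℂ} (h : ∀ x, IsDensity (σ x))
    (hr : (σ 0 - σ 1).rank ≤ 2) : FlaggedRankTwo σ := by
  refine ⟨1, fun _ => 1, fun _ => isHermitian_one, fun _ => Matrix.one_mul 1, by simp,
    fun _ _ => by rw [Matrix.one_mul, Matrix.mul_one], fun _ => ?_⟩
  rw [Matrix.one_mul]
  refine sig11_of_rank_le_two ((h 0).1.1.sub (h 1).1.1) ?_ hr
  rw [trace_sub, (h 0).2, (h 1).2, sub_self]

/-- Every pair of qubit states. -/
theorem flagged_of_qubit {σ : Fin 2 → Matrix b b ℂ} (h : ∀ x, IsDensity (σ x))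
    (hb : Fintype.card b ≤ 2) : FlaggedRankTwo σ :=
  flagged_of_rank_le_two h ((Matrix.rank_le_card_width _).trans hb)

/-- Every pair of pure states. -/
theorem flagged_of_pure {σ : Fin 2 → Matrix b b ℂ}
    (hp : ∀ x, ∃ v : b → ℂ, σ x = vecMulVec v (star v)) : FlaggedRankTwo σ := by
  obtain ⟨v, hv⟩ := hp 0
  obtain ⟨w, hw⟩ := hp 1
  refine ⟨1, fun _ => 1, fun _ => isHermitian_one, fun _ => Matrix.one_mul 1, by simp,
    fun _ _ => by rw [Matrix.one_mul, Matrix.mul_one], fun _ => ⟨v, w, ?_⟩⟩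
  rw [Matrix.one_mul, hv, hw]

/-- Commuting Hermitian matrices are simultaneously diagonalisable. -/
theorem exists_joint_spectral {A B : Matrix b b ℂ} (hA : A.IsHermitian) (hB : B.IsHermitian)
    (hAB : A * B = B * A) :
    ∃ (n : ℕ) (e : Fin n → b → ℂ) (x y : Fin n → ℝ),
      (∀ i j, star (e i) ⬝ᵥ e j = if i = j then 1 else 0) ∧
      ∑ i, vecMulVec (e i) (star (e i)) = 1 ∧
      (∀ i, A *ᵥ e i = (x i : ℂ) • e i) ∧ (∀ i, B *ᵥ e i = (y i : ℂ) • e i) := by
  classical
  have sA := isSymmetric_toEuclideanLin_iff.mpr hA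
  have sB := isSymmetric_toEuclideanLin_iff.mpr hB
  have hc : Commute (toEuclideanLin A) (toEuclideanLin B) := by
    show toEuclideanLin A * toEuclideanLin B = toEuclideanLin B * toEuclideanLin A
    ext v i
    have h1 : (A *ᵥ (B *ᵥ v.ofLp)) = (B *ᵥ (A *ᵥ v.ofLp)) := by
      rw [Matrix.mulVec_mulVec, Matrix.mulVec_mulVec, hAB]
    have := congrFun h1 i
    simpa using this
  have hI := LinearMap.IsSymmetric.directSum_isInternal_of_commute sA sB hc
  have hO := LinearMap.IsSymmetric.orthogonalFamily_eigenspace_inf_eigenspace sA sB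
  have hI2 := DirectSum.isInternal_ne_bot_iff.mpr hI
  have hfin : Finite {i : ℂ × ℂ // (Module.End.eigenspace (toEuclideanLin A) i.2 ⊓
      Module.End.eigenspace (toEuclideanLin B) i.1) ≠ ⊥} :=
    (WellFoundedGT.finite_ne_bot_of_iSupIndep hI.submodule_iSupIndep).to_subtype
  have := Fintype.ofFinite {i : ℂ × ℂ // (Module.End.eigenspace (toEuclideanLin A) i.2 ⊓
      Module.End.eigenspace (toEuclideanLin B) i.1) ≠ ⊥}
  have hO2 := hO.comp (Subtype.val_injective (p := fun i : ℂ × ℂ =>
    (Module.End.eigenspace (toEuclideanLin A) i.2 ⊓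
      Module.End.eigenspace (toEuclideanLin B) i.1) ≠ ⊥))
  let E := hI2.subordinateOrthonormalBasis (n := Fintype.card b) (by simp) hO2
  have hmem := fun a => hI2.subordinateOrthonormalBasis_subordinate (n := Fintype.card b)
    (by simp) a hO2
  have hA1 : ∀ a, ∃ x : ℂ, A *ᵥ (E a).ofLp = x • (E a).ofLp := by
    intro a
    have h1 := (Submodule.mem_inf.1 (hmem a)).1
    rw [Module.End.mem_eigenspace_iff] at h1
    exact ⟨_, congrArg (fun z => z.ofLp) h1⟩
  have hB1 : ∀ a, ∃ x : ℂ, B *ᵥ (E a).ofLp = x • (E a).ofLp := by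
    intro a
    have h1 := (Submodule.mem_inf.1 (hmem a)).2
    rw [Module.End.mem_eigenspace_iff] at h1
    exact ⟨_, congrArg (fun z => z.ofLp) h1⟩
  have hon : ∀ i j, star (E i).ofLp ⬝ᵥ (E j).ofLp = if i = j then 1 else 0 := by
    intro i j
    have h1 := orthonormal_iff_ite.1 E.orthonormal i j
    rw [← h1, EuclideanSpace.inner_eq_star_dotProduct, dotProduct_comm]
  have hreal : ∀ (C : Matrix b b ℂ), C.IsHermitian → ∀ i (x : ℂ),
      C *ᵥ (E i).ofLp = x • (E i).ofLp → x = (x.re : ℂ) := by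
    intro C hC i x hx
    have h1 : star (E i).ofLp ⬝ᵥ (C *ᵥ (E i).ofLp) = x := by
      rw [hx, dotProduct_smul, hon, if_pos rfl]
      simp
    have h2 : star (star (E i).ofLp ⬝ᵥ (C *ᵥ (E i).ofLp)) =
        star (E i).ofLp ⬝ᵥ (C *ᵥ (E i).ofLp) := by
      rw [← star_dotProduct_star, star_star, star_mulVec, hC.eq, ← dotProduct_mulVec]
    rw [h1] at h2
    exact (Complex.conj_eq_iff_re.1 h2).symm
  choose xa hxa using hA1
  choose xb hxb using hB1
  refine ⟨Fintype.card b, fun i => (E i).ofLp, fun i => (xa i).re, fun i => (xb i).re, hon, ?_,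
    fun i => ?_, fun i => ?_⟩
  · ext i j
    rw [Matrix.sum_apply]
    have h1 := E.sum_repr' (EuclideanSpace.single j (1 : ℂ))
    have h2 := congrArg (fun z => z.ofLp i) h1
    simp only [WithLp.ofLp_sum, WithLp.ofLp_smul, Finset.sum_apply, Pi.smul_apply] at h2
    simp only [vecMulVec_apply, Pi.star_apply, Matrix.one_apply]
    have h3 : (EuclideanSpace.single j (1 : ℂ)).ofLp i = if i = j then 1 else 0 := by
      simp
    rw [← h3, ← h2]
    refine Finset.sum_congr rfl fun k _ => ?_
    rw [EuclideanSpace.inner_single_right]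
    simp [mul_comm]
  · rw [hxa i]
    rw [← hreal A hA i _ (hxa i)]
  · rw [hxb i]
    rw [← hreal B hB i _ (hxb i)]

/-- Every pair of commuting states (the classical case). -/
theorem flagged_of_commute {σ : Fin 2 → Matrix b b ℂ} (h : ∀ x, (σ x).IsHermitian)
    (hc : σ 0 * σ 1 = σ 1 * σ 0) : FlaggedRankTwo σ := by
  obtain ⟨n, e, x, y, hon, hs, hA, hB⟩ := exists_joint_spectral (h 0) (h 1) hc
  have hP : ∀ i, (vecMulVec (e i) (star (e i))).IsHermitian := by
    intro i
    ext k l
    simp [vecMulVec_apply, mul_comm]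
  have hleft : ∀ (C : Matrix b b ℂ) (i : Fin n) (z : ℝ), C *ᵥ e i = (z : ℂ) • e i →
      C * vecMulVec (e i) (star (e i)) = (z : ℂ) • vecMulVec (e i) (star (e i)) := by
    intro C i z hz
    rw [mul_vecMulVec, hz, smul_vecMulVec]
  have hright : ∀ (C : Matrix b b ℂ), C.IsHermitian → ∀ (i : Fin n) (z : ℝ),
      C *ᵥ e i = (z : ℂ) • e i →
      vecMulVec (e i) (star (e i)) * C = (z : ℂ) • vecMulVec (e i) (star (e i)) := by
    intro C hC i z hz
    have h1 := congrArg conjTranspose (hleft C i z hz)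
    rw [conjTranspose_mul, (hP i).eq, hC.eq, conjTranspose_smul, (hP i).eq] at h1
    rw [h1]
    congr 1
    simp
  have hv : ∀ j, ∃ z : Fin 2 → ℝ, ∀ k, σ k *ᵥ e j = (z k : ℂ) • e j := by
    intro j
    refine ⟨![x j, y j], fun k => ?_⟩
    fin_cases k
    · exact hA j
    · exact hB j
  choose z hz using hv
  refine ⟨n, fun i => vecMulVec (e i) (star (e i)), hP, fun i => ?_, hs, fun i k => ?_,
    fun i => ?_⟩
  · rw [vecMulVec_mul_vecMulVec, hon i i, if_pos rfl, one_smul]
  · rw [hleft _ i _ (hz i k), hright _ (h k) i _ (hz i k)]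
  · obtain ⟨v, w, hvw⟩ := sig11_smul_vecMulVec (e i) (z i 0 - z i 1)
    refine ⟨v, w, ?_⟩
    rw [← hvw, Matrix.mul_sub, hright _ (h 0) i _ (hz i 0), hright _ (h 1) i _ (hz i 1),
      ← sub_smul]
    push_cast
    rfl

end Pool.Agent.Lib_helper98.Renyi
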