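import Mathlib

set_option autoImplicit false

namespace Pool.Agent.Lib_helper33

/-- The dual Fano configuration forces squares into `a1`. -/
theorem sq_mem_of_fano {H : Type*} [Group H] {T a1 a2 a3 d1 d2 d3 e : Subgroup H}
    (na1 : a1.Normal) (na2 : a2.Normal) (na3 : a3.Normal) (nd2 : d2.Normal)
    (nd3 : d3.Normal) (ne : e.Normal)
    (h1 : T ≤ a1 ⊔ (a2 ⊓ a3)) (h2 : a2 ⊓ a3 ≤ e ⊔ (a1 ⊓ a3)) (h3 : a2 ⊓ a3 ≤ e ⊔ (a1 ⊓ a2))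
    (h4 : a3 ⊓ e ≤ d3) (h5 : a2 ⊓ e ≤ d2) (h6 : a1 ⊓ e ≤ d1)
    (h7 : a2 ⊓ a3 ≤ d1) (h8 : a1 ⊓ a3 ≤ d2) (h9 : a1 ⊓ a2 ≤ d3)
    (h10 : d1 ⊓ d2 ≤ d3) (h11 : d3 ⊓ a2 ≤ a1) :
    ∀ t ∈ T, t * t ∈ a1 := by
  intro t0 ht0
  obtain ⟨α, hα, t, ht, rfl⟩ := Subgroup.mem_sup_of_normal_left.1 (h1 ht0)
  obtain ⟨ε, hε, s', hs', hts⟩ := Subgroup.mem_sup_of_normal_left.1 (h2 ht)
  obtain ⟨ε2, hε2, r', hr', htr⟩ := Subgroup.mem_sup_of_normal_left.1 (h3 ht)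
  obtain ⟨ht2, ht3⟩ := Subgroup.mem_inf.1 ht
  obtain ⟨hs1, hs3⟩ := Subgroup.mem_inf.1 hs'
  obtain ⟨hr1, hr2⟩ := Subgroup.mem_inf.1 hr'
  -- s = s'⁻¹, r = r'⁻¹
  have e1 : t * s'⁻¹ = ε := by rw [← hts]; group
  have e2 : t * r'⁻¹ = ε2 := by rw [← htr]; group
  have k1 : t * s'⁻¹ ∈ d3 := h4 (Subgroup.mem_inf.2 ⟨a3.mul_mem ht3 (a3.inv_mem hs3), e1 ▸ hε⟩)
  have k2 : t * r'⁻¹ ∈ d2 := h5 (Subgroup.mem_inf.2 ⟨a2.mul_mem ht2 (a2.inv_mem hr2), e2 ▸ hε2⟩)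
  have k3 : s' * r'⁻¹ ∈ e := by
    have : s' * r'⁻¹ = ε⁻¹ * ε2 := by rw [← e1, ← e2]; group
    rw [this]; exact e.mul_mem (e.inv_mem hε) hε2
  have k4 : s' * r'⁻¹ ∈ d1 := h6 (Subgroup.mem_inf.2 ⟨a1.mul_mem hs1 (a1.inv_mem hr1), k3⟩)
  have k5 : t * s' * r'⁻¹ ∈ d1 := by
    rw [mul_assoc]; exact d1.mul_mem (h7 ht) k4
  have k6 : t * s' * r'⁻¹ ∈ d2 := by
    have : t * s' * r'⁻¹ = (t * s' * t⁻¹) * (t * r'⁻¹) := by group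
    rw [this]; exact d2.mul_mem (nd2.conj_mem _ (h8 hs') t) k2
  have k7 : t * s' * r'⁻¹ ∈ d3 := h10 (Subgroup.mem_inf.2 ⟨k5, k6⟩)
  have k8 : t * s' ∈ d3 := by
    have : t * s' = (t * s' * r'⁻¹) * r' := by group
    rw [this]; exact d3.mul_mem k7 (h9 hr')
  have k9 : s'⁻¹ * t ∈ d3 := by
    have : s'⁻¹ * t = t⁻¹ * (t * s'⁻¹) * (t⁻¹)⁻¹ := by group
    rw [this]; exact nd3.conj_mem _ k1 _
  have k10 : t * t ∈ d3 := by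
    have : t * t = (t * s') * (s'⁻¹ * t) := by group
    rw [this]; exact d3.mul_mem k8 k9
  have k11 : t * t ∈ a1 := h11 (Subgroup.mem_inf.2 ⟨k10, a2.mul_mem ht2 ht2⟩)
  have : α * t * (α * t) = α * (t * α * t⁻¹) * (t * t) := by group
  rw [this]
  exact a1.mul_mem (a1.mul_mem hα (na1.conj_mem _ hα t)) k11

/-- The dual non-Fano configuration collapses when all squares lie in `d3`. -/
theorem le_of_nonfano {H : Type*} [Group H] {a1 a2 a3 d1 d2 d3 e : Subgroup H}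
    (na1 : a1.Normal) (na2 : a2.Normal)
    (ha : d1 ⊓ d2 ≤ a1 ⊔ (a2 ⊓ a3)) (hb : d1 ⊓ d2 ≤ a2 ⊔ (a1 ⊓ a3))
    (c1 : a2 ⊓ a3 ≤ d1) (c2 : a1 ⊓ a3 ≤ d2) (c3 : a1 ⊓ a2 ≤ d3)
    (e1 : a1 ⊓ d1 ≤ e) (e2 : a2 ⊓ d2 ≤ e) (e3 : a3 ⊓ e ≤ d3)
    (sq : ∀ t ∈ a2 ⊓ a3, t * t ∈ d3) : d1 ⊓ d2 ≤ d3 := by
  intro w hw
  obtain ⟨ω1, hω1, α, hα, h1⟩ := Subgroup.mem_sup_of_normal_left.1 (ha hw)
  obtain ⟨ω2, hω2, β, hβ, h2⟩ := Subgroup.mem_sup_of_normal_left.1 (hb hw)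
  obtain ⟨hw1, hw2⟩ := Subgroup.mem_inf.1 hw
  obtain ⟨hα2, hα3⟩ := Subgroup.mem_inf.1 hα
  obtain ⟨hβ1, hβ3⟩ := Subgroup.mem_inf.1 hβ
  have k1 : ω1 ∈ e := by
    apply e1
    refine Subgroup.mem_inf.2 ⟨hω1, ?_⟩
    have : ω1 = w * α⁻¹ := by rw [← h1]; group
    rw [this]; exact d1.mul_mem hw1 (d1.inv_mem (c1 hα))
  have k2 : ω2 ∈ e := by
    apply e2
    refine Subgroup.mem_inf.2 ⟨hω2, ?_⟩
    have : ω2 = w * β⁻¹ := by rw [← h2]; group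
    rw [this]; exact d2.mul_mem hw2 (d2.inv_mem (c2 hβ))
  have k3 : β * α⁻¹ ∈ d3 := by
    apply e3
    refine Subgroup.mem_inf.2 ⟨a3.mul_mem hβ3 (a3.inv_mem hα3), ?_⟩
    have : β * α⁻¹ = ω2⁻¹ * ω1 := by
      have : ω2 * β = ω1 * α := by rw [h1, h2]
      calc β * α⁻¹ = ω2⁻¹ * (ω2 * β) * α⁻¹ := by group
        _ = ω2⁻¹ * (ω1 * α) * α⁻¹ := by rw [this]
        _ = ω2⁻¹ * ω1 := by group
    rw [this]; exact e.mul_mem (e.inv_mem k2) k1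
  have k4 : ω1 * β⁻¹ ∈ d3 := by
    apply c3
    refine Subgroup.mem_inf.2 ⟨a1.mul_mem hω1 (a1.inv_mem hβ1), ?_⟩
    have h3 : ω1 = ω2 * β * α⁻¹ := by rw [h2, ← h1]; group
    have : ω1 * β⁻¹ = ω2 * (β * α⁻¹ * β⁻¹) := by rw [h3]; group
    rw [this]; exact a2.mul_mem hω2 (na2.conj_mem _ (a2.inv_mem hα2) β)
  have : w = (ω1 * β⁻¹) * (β * α⁻¹) * (α * α) := by rw [← h1]; group
  rw [this]
  exact d3.mul_mem (d3.mul_mem k4 k3) (sq α hα)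

end Pool.Agent.Lib_helper33
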