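import Mathlib
import Pool.Agent.Lib_helper33.Fano

set_option autoImplicit false

namespace Pool.Agent.Lib_helper33

variable {G K : Type*} [Group G] [CommGroup K]

/-- The subgroup `{φ (k^(f 0), k^(f 1), k^(f 2)) : k ∈ K}`. -/
def Sg (φ : (Fin 3 → K) →* G) (f : Fin 3 → ℤ) : Subgroup G :=
  (φ.comp (MonoidHom.pi (fun i => zpowGroupHom (f i)))).range

theorem mem_Sg {φ : (Fin 3 → K) →* G} {f : Fin 3 → ℤ} {x : G} :
    x ∈ Sg φ f ↔ ∃ k : K, φ (fun i => k ^ f i) = x := by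
  unfold Sg
  rw [MonoidHom.mem_range]
  rfl

theorem Sg_add_le (φ : (Fin 3 → K) →* G) (f f' : Fin 3 → ℤ) :
    Sg φ (f + f') ≤ Sg φ f ⊔ Sg φ f' := by
  intro x hx
  obtain ⟨k, rfl⟩ := mem_Sg.1 hx
  have : (fun i => k ^ (f + f') i) = (fun i => k ^ f i) * (fun i => k ^ f' i) := by
    funext i; simp [zpow_add]
  rw [this, map_mul]
  exact Subgroup.mul_mem_sup (mem_Sg.2 ⟨k, rfl⟩) (mem_Sg.2 ⟨k, rfl⟩)

theorem Sg_le_add (φ : (Fin 3 → K) →* G) (f f' : Fin 3 → ℤ) :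
    Sg φ f ≤ Sg φ (f + f') ⊔ Sg φ f' := by
  intro x hx
  obtain ⟨k, rfl⟩ := mem_Sg.1 hx
  have : (fun i => k ^ f i) = (fun i => k ^ (f + f') i) * (fun i => (k⁻¹) ^ f' i) := by
    funext i; simp [zpow_add]
  rw [this, map_mul]
  exact Subgroup.mul_mem_sup (mem_Sg.2 ⟨k, rfl⟩) (mem_Sg.2 ⟨k⁻¹, rfl⟩)

/-- equivariance of a frame. -/
def Equivar (φ : (Fin 3 → K) →* G) : Prop :=
  ∀ g : G, ∃ σ : K →* K, ∀ h : Fin 3 → K, g * φ h * g⁻¹ = φ (fun i => σ (h i))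

theorem Sg_normal {φ : (Fin 3 → K) →* G} (hφ : Equivar φ) (f : Fin 3 → ℤ) : (Sg φ f).Normal := by
  constructor
  intro n hn g
  obtain ⟨k, rfl⟩ := mem_Sg.1 hn
  obtain ⟨σ, hσ⟩ := hφ g
  rw [hσ]
  refine mem_Sg.2 ⟨σ k, ?_⟩
  congr 1
  funext i
  rw [map_zpow]

/-- the three exponent vectors are independent over `K`. -/
def Indep (K : Type*) [CommGroup K] (f1 f2 f3 : Fin 3 → ℤ) : Prop :=
  ∀ a b c : K, (∀ i, a ^ f1 i * b ^ f2 i * c ^ f3 i = 1) → a = 1 ∧ b = 1 ∧ c = 1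

theorem Indep.inf_sup {φ : (Fin 3 → K) →* G} (hinj : Function.Injective φ) (hφ : Equivar φ)
    {f1 f2 f3 : Fin 3 → ℤ} (h : Indep K f1 f2 f3) : Sg φ f1 ⊓ (Sg φ f2 ⊔ Sg φ f3) = ⊥ := by
  rw [eq_bot_iff]
  intro x hx
  obtain ⟨h1, h2⟩ := Subgroup.mem_inf.1 hx
  obtain ⟨k, rfl⟩ := mem_Sg.1 h1
  haveI := Sg_normal hφ f2
  obtain ⟨y, hy, z, hz, hyz⟩ := Subgroup.mem_sup_of_normal_left.1 h2
  obtain ⟨a, rfl⟩ := mem_Sg.1 hy
  obtain ⟨b, rfl⟩ := mem_Sg.1 hz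
  rw [← map_mul] at hyz
  have h3 := hinj hyz
  have h4 := h k a⁻¹ b⁻¹ (by
    intro i
    have := congrFun h3 i
    simp only [Pi.mul_apply] at this
    rw [← this]
    simp)
  rw [h4.1]
  simp
  exact map_one φ

theorem Indep.perm1 {f1 f2 f3 : Fin 3 → ℤ} (h : Indep K f1 f2 f3) : Indep K f2 f1 f3 := by
  intro a b c habc
  have := h b a c (fun i => by rw [mul_comm (b ^ f1 i)]; exact habc i)
  exact ⟨this.2.1, this.1, this.2.2⟩

theorem Indep.perm2 {f1 f2 f3 : Fin 3 → ℤ} (h : Indep K f1 f2 f3) : Indep K f3 f2 f1 := by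
  intro a b c habc
  have := h c b a (fun i => by rw [← habc i]; simp only [mul_comm, mul_left_comm, mul_assoc])
  exact ⟨this.2.2, this.2.1, this.1⟩

theorem Indep.sum_left {f1 f2 f3 : Fin 3 → ℤ} (h : Indep K f1 f2 f3) :
    Indep K (f1 + f2 + f3) f1 f3 := by
  intro a b c habc
  have := h (a * b) a (a * c) (fun i => by
    rw [← habc i]; simp only [Pi.add_apply, zpow_add, mul_zpow]
    simp only [mul_comm, mul_left_comm, mul_assoc])
  obtain ⟨h1, h2, h3⟩ := this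
  subst h2
  simpa using And.intro h1 h3

theorem Indep.sum_left' {f1 f2 f3 : Fin 3 → ℤ} (h : Indep K f1 f2 f3) :
    Indep K (f1 + f2 + f3) f1 f2 := by
  intro a b c habc
  have := h (a * b) (a * c) a (fun i => by
    rw [← habc i]; simp only [Pi.add_apply, zpow_add, mul_zpow]
    simp only [mul_comm, mul_left_comm, mul_assoc])
  obtain ⟨h1, h2, h3⟩ := this
  subst h3
  simpa using And.intro h1 h2

/-- The lattice of normal subgroups. -/
abbrev NS (G : Type*) [Group G] : Type _ := {N : Subgroup G // N.Normal}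

instance NS.instLattice (G : Type*) [Group G] : Lattice (NS G) :=
  Subtype.lattice (fun {x y} hx hy => by haveI := hx; haveI := hy; exact Subgroup.sup_normal x y)
    (fun {x y} hx hy => by haveI := hx; haveI := hy; exact Subgroup.normal_inf_normal x y)

theorem NS.coe_sup (x y : NS G) : ((x ⊔ y : NS G) : Subgroup G) = x.1 ⊔ y.1 := rfl
theorem NS.coe_inf (x y : NS G) : ((x ⊓ y : NS G) : Subgroup G) = x.1 ⊓ y.1 := rfl
theorem NS.le_iff (x y : NS G) : x ≤ y ↔ x.1 ≤ y.1 := Iff.rfl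

/-- An order-reversing lattice map from `NS G` to the normal subgroups of `H`. -/
structure Anti (G H : Type*) [Group G] [Group H] where
  g : NS G → Subgroup H
  sup : ∀ x y, g (x ⊔ y) = g x ⊓ g y
  inf : ∀ x y, g (x ⊓ y) = g x ⊔ g y
  nor : ∀ x, (g x).Normal

theorem Anti.anti {H : Type*} [Group H] (F : Anti G H) {x y : NS G} (h : x ≤ y) :
    F.g y ≤ F.g x := by
  have h1 := F.inf x y
  rw [inf_eq_left.2 h] at h1
  rw [h1]; exact le_sup_right

/-- bottom element. -/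
def O (G : Type*) [Group G] : NS G := ⟨⊥, inferInstance⟩

theorem O_le (x : NS G) : O G ≤ x := by
  rw [NS.le_iff]; exact bot_le

theorem Anti.le_top {H : Type*} [Group H] (F : Anti G H) (x : NS G) : F.g x ≤ F.g (O G) :=
  F.anti (O_le x)

/-- element of `NS G` given by an exponent vector -/
def E {φ : (Fin 3 → K) →* G} (hφ : Equivar φ) (f : Fin 3 → ℤ) : NS G := ⟨Sg φ f, Sg_normal hφ f⟩

theorem Anti.sq_mem {H : Type*} [Group H] (F : Anti G H) {φ : (Fin 3 → K) →* G}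
    (hinj : Function.Injective φ) (hφ : Equivar φ) (h2 : ∀ k : K, k * k = 1)
    {f1 f2 f3 : Fin 3 → ℤ} (hf : Indep K f1 f2 f3) :
    ∀ t ∈ F.g (O G), t * t ∈ F.g (E hφ f1) := by
  have key : ∀ x y z : NS G, x ≤ y ⊔ z → F.g y ⊓ F.g z ≤ F.g x := by
    intro x y z h
    rw [← F.sup]; exact F.anti h
  have key2 : ∀ x y z : NS G, x ⊓ (y ⊔ z) ≤ O G → F.g (O G) ≤ F.g x ⊔ (F.g y ⊓ F.g z) := by
    intro x y z h
    rw [← F.sup, ← F.inf]; exact F.anti h
  refine sq_mem_of_fano (a1 := F.g (E hφ f1)) (a2 := F.g (E hφ f2)) (a3 := F.g (E hφ f3))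
    (d1 := F.g (E hφ (f2 + f3))) (d2 := F.g (E hφ (f1 + f3))) (d3 := F.g (E hφ (f1 + f2)))
    (e := F.g (E hφ (f1 + f2 + f3)))
    (F.nor _) (F.nor _) (F.nor _) (F.nor _) (F.nor _) (F.nor _) ?_ ?_ ?_ ?_ ?_ ?_ ?_ ?_ ?_ ?_ ?_
  · apply key2
    rw [NS.le_iff]
    exact le_of_eq (hf.inf_sup hinj hφ)
  · refine le_trans (le_trans inf_le_left (F.le_top _)) ?_
    apply key2
    rw [NS.le_iff]
    exact le_of_eq (hf.sum_left.inf_sup hinj hφ)
  · refine le_trans (le_trans inf_le_left (F.le_top _)) ?_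
    apply key2
    rw [NS.le_iff]
    exact le_of_eq (hf.sum_left'.inf_sup hinj hφ)
  · apply key
    rw [NS.le_iff]
    refine le_trans (Sg_le_add φ (f1 + f2) f3) ?_
    rw [NS.coe_sup, sup_comm]; rfl
  · apply key
    rw [NS.le_iff]
    refine le_trans (Sg_le_add φ (f1 + f3) f2) ?_
    rw [NS.coe_sup, sup_comm, add_right_comm]; rfl
  · apply key
    rw [NS.le_iff]
    refine le_trans (Sg_le_add φ (f2 + f3) f1) ?_
    rw [NS.coe_sup, sup_comm, add_comm, ← add_assoc]; rfl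
  · apply key
    exact Sg_add_le φ f2 f3
  · apply key
    exact Sg_add_le φ f1 f3
  · apply key
    exact Sg_add_le φ f1 f2
  · apply key
    rw [NS.le_iff]
    intro x hx
    obtain ⟨k, rfl⟩ := mem_Sg.1 hx
    have : (fun i => k ^ (f1 + f2) i) =
        (fun i => k ^ (f2 + f3) i) * (fun i => k ^ (f1 + f3) i) := by
      funext i
      have h3 : k ^ f3 i * k ^ f3 i = 1 := by rw [← mul_zpow, h2, one_zpow]
      simp only [Pi.add_apply, Pi.mul_apply, zpow_add]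
      calc k ^ f1 i * k ^ f2 i = k ^ f1 i * k ^ f2 i * (k ^ f3 i * k ^ f3 i) := by rw [h3, mul_one]
        _ = k ^ f2 i * k ^ f3 i * (k ^ f1 i * k ^ f3 i) := by
          simp only [mul_comm, mul_left_comm, mul_assoc]
    rw [this, map_mul]
    exact Subgroup.mul_mem_sup (mem_Sg.2 ⟨k, rfl⟩) (mem_Sg.2 ⟨k, rfl⟩)
  · apply key
    exact Sg_le_add φ f1 f2

theorem Anti.nonfano {H : Type*} [Group H] (F : Anti G H) (Finj : Function.Injective F.g)
    {φ : (Fin 3 → K) →* G}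
    (hinj : Function.Injective φ) (hφ : Equivar φ)
    {f1 f2 f3 : Fin 3 → ℤ} (hf : Indep K f1 f2 f3)
    (sq : ∀ t ∈ F.g (O G), t * t ∈ F.g (E hφ (f1 + f2))) : ∀ k : K, k * k = 1 := by
  have key : ∀ x y z : NS G, x ≤ y ⊔ z → F.g y ⊓ F.g z ≤ F.g x := by
    intro x y z h
    rw [← F.sup]; exact F.anti h
  have key2 : ∀ x y z : NS G, x ⊓ (y ⊔ z) ≤ O G → F.g (O G) ≤ F.g x ⊔ (F.g y ⊓ F.g z) := by
    intro x y z h
    rw [← F.sup, ← F.inf]; exact F.anti h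
  have main : F.g (E hφ (f2 + f3)) ⊓ F.g (E hφ (f1 + f3)) ≤ F.g (E hφ (f1 + f2)) := by
    refine le_of_nonfano (a1 := F.g (E hφ f1)) (a2 := F.g (E hφ f2)) (a3 := F.g (E hφ f3))
      (d1 := F.g (E hφ (f2 + f3))) (d2 := F.g (E hφ (f1 + f3))) (d3 := F.g (E hφ (f1 + f2)))
      (e := F.g (E hφ (f1 + f2 + f3))) (F.nor _) (F.nor _) ?_ ?_ ?_ ?_ ?_ ?_ ?_ ?_ ?_
    · refine le_trans (le_trans inf_le_left (F.le_top _)) ?_
      apply key2
      rw [NS.le_iff]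
      exact le_of_eq (hf.inf_sup hinj hφ)
    · refine le_trans (le_trans inf_le_left (F.le_top _)) ?_
      apply key2
      rw [NS.le_iff]
      exact le_of_eq (hf.perm1.inf_sup hinj hφ)
    · apply key
      exact Sg_add_le φ f2 f3
    · apply key
      exact Sg_add_le φ f1 f3
    · apply key
      exact Sg_add_le φ f1 f2
    · apply key
      rw [NS.le_iff, NS.coe_sup]
      have := Sg_add_le φ f1 (f2 + f3)
      rw [← add_assoc] at this
      exact this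
    · apply key
      rw [NS.le_iff, NS.coe_sup]
      have := Sg_add_le φ f2 (f1 + f3)
      rw [← add_assoc, add_comm f2 f1] at this
      exact this
    · apply key
      rw [NS.le_iff]
      refine le_trans (Sg_le_add φ (f1 + f2) f3) ?_
      rw [NS.coe_sup, sup_comm]; rfl
    · intro t ht
      exact sq t (F.le_top _ (inf_le_left (a := F.g (E hφ f2)) ht))
  rw [← F.sup] at main
  have h1 : E hφ (f1 + f2) ≤ E hφ (f2 + f3) ⊔ E hφ (f1 + f3) := by
    have h2 := F.inf (E hφ (f1 + f2)) (E hφ (f2 + f3) ⊔ E hφ (f1 + f3))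
    rw [sup_eq_left.2 main] at h2
    exact inf_eq_left.1 (Finj h2)
  intro k
  rw [NS.le_iff, NS.coe_sup] at h1
  haveI := Sg_normal hφ (f2 + f3)
  have h3 : φ (fun i => k ^ (f1 + f2) i) ∈ Sg φ (f2 + f3) ⊔ Sg φ (f1 + f3) :=
    h1 (mem_Sg.2 ⟨k, rfl⟩)
  obtain ⟨y, hy, z, hz, hyz⟩ := Subgroup.mem_sup_of_normal_left.1 h3
  obtain ⟨a, rfl⟩ := mem_Sg.1 hy
  obtain ⟨b, rfl⟩ := mem_Sg.1 hz
  rw [← map_mul] at hyz
  have h4 := hinj hyz
  have h5 := hf (k * b⁻¹) (k * a⁻¹) (a⁻¹ * b⁻¹) (by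
    intro i
    have := congrFun h4 i
    simp only [Pi.mul_apply, Pi.add_apply, zpow_add] at this
    simp only [mul_zpow, inv_zpow]
    calc k ^ f1 i * (b ^ f1 i)⁻¹ * (k ^ f2 i * (a ^ f2 i)⁻¹) * ((a ^ f3 i)⁻¹ * (b ^ f3 i)⁻¹)
        = (k ^ f1 i * k ^ f2 i) * (a ^ f2 i * a ^ f3 i * (b ^ f1 i * b ^ f3 i))⁻¹ := by
          simp only [mul_inv, mul_comm, mul_left_comm, mul_assoc]
      _ = 1 := by rw [this, mul_inv_cancel])
  obtain ⟨h6, h7, h8⟩ := h5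
  have h9 : k = b := by rwa [mul_inv_eq_one] at h6
  have h10 : k = a := by rwa [mul_inv_eq_one] at h7
  rw [← h9, ← h10] at h8
  rw [← mul_inv, inv_eq_one] at h8
  exact h8

end Pool.Agent.Lib_helper33
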