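import Mathlib
import Pool.Agent.Lib_helper33.Frame

set_option autoImplicit false

namespace Pool.Agent.Lib_helper33

/-- the dihedral group of order 8. -/
abbrev D := DihedralGroup 4

def c1 : D → ZMod 2
  | .r i => (i.val : ZMod 2)
  | .sr i => (i.val : ZMod 2)

def c3 : D → ZMod 2
  | .r _ => 0
  | .sr _ => 1

def c2 (g : D) : ZMod 2 := c1 g + c3 g

theorem c1_mul : ∀ a b : D, c1 (a * b) = c1 a + c1 b := by decide
theorem c2_mul : ∀ a b : D, c2 (a * b) = c2 a + c2 b := by decide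
theorem c3_mul : ∀ a b : D, c3 (a * b) = c3 a + c3 b := by decide
theorem c1_inv : ∀ a : D, c1 a⁻¹ = c1 a := by decide
theorem c2_inv : ∀ a : D, c2 a⁻¹ = c2 a := by decide
theorem c3_inv : ∀ a : D, c3 a⁻¹ = c3 a := by decide
theorem c1_one : c1 (1 : D) = 0 := by decide
theorem c2_one : c2 (1 : D) = 0 := by decide
theorem c3_one : c3 (1 : D) = 0 := by decide
theorem c1_conj : ∀ a b : D, c1 (a * b * a⁻¹) = c1 b := by decide
theorem c2_conj : ∀ a b : D, c2 (a * b * a⁻¹) = c2 b := by decide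
theorem c3_conj : ∀ a b : D, c3 (a * b * a⁻¹) = c3 b := by decide

theorem comm1 : ∀ a b : D, c1 a = 0 → c1 b = 0 → a * b = b * a := by decide
theorem comm2 : ∀ a b : D, c2 a = 0 → c2 b = 0 → a * b = b * a := by decide
theorem comm3 : ∀ a b : D, c3 a = 0 → c3 b = 0 → a * b = b * a := by decide
theorem sq1 : ∀ a : D, c1 a = 0 → a * a = 1 := by decide
theorem sq2 : ∀ a : D, c2 a = 0 → a * a = 1 := by decide

theorem conj1 : ∀ a b n : D, c1 a = c1 b → c1 n = 0 → a * n * a⁻¹ = b * n * b⁻¹ := by decide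
theorem conj2 : ∀ a b n : D, c2 a = c2 b → c2 n = 0 → a * n * a⁻¹ = b * n * b⁻¹ := by decide
theorem conj3 : ∀ a b n : D, c3 a = c3 b → c3 n = 0 → a * n * a⁻¹ = b * n * b⁻¹ := by decide

/-- The group `G ≤ D^27`. -/
def BG : Subgroup (Fin 3 → Fin 3 → Fin 3 → D) where
  carrier := {g | (∀ i j k, c1 (g i j k) = c1 (g 0 j k)) ∧
    (∀ i j k, c2 (g i j k) = c2 (g i 0 k)) ∧ (∀ i j k, c3 (g i j k) = c3 (g i j 0))}
  mul_mem' := by
    rintro a b ⟨h1, h2, h3⟩ ⟨h4, h5, h6⟩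
    refine ⟨fun i j k => ?_, fun i j k => ?_, fun i j k => ?_⟩
    · simp only [Pi.mul_apply, c1_mul]; rw [h1, h4]
    · simp only [Pi.mul_apply, c2_mul]; rw [h2, h5]
    · simp only [Pi.mul_apply, c3_mul]; rw [h3, h6]
  one_mem' := by
    refine ⟨fun i j k => rfl, fun i j k => rfl, fun i j k => rfl⟩
  inv_mem' := by
    rintro a ⟨h1, h2, h3⟩
    refine ⟨fun i j k => ?_, fun i j k => ?_, fun i j k => ?_⟩
    · simp only [Pi.inv_apply, c1_inv]; exact h1 i j k
    · simp only [Pi.inv_apply, c2_inv]; exact h2 i j k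
    · simp only [Pi.inv_apply, c3_inv]; exact h3 i j k

def K1 : Subgroup (Fin 3 → Fin 3 → D) where
  carrier := {h | (∀ j k, c1 (h j k) = 0) ∧
    (∀ j k, c2 (h j k) = c2 (h 0 k)) ∧ (∀ j k, c3 (h j k) = c3 (h j 0))}
  mul_mem' := by
    rintro a b ⟨h1, h2, h3⟩ ⟨h4, h5, h6⟩
    refine ⟨fun j k => ?_, fun j k => ?_, fun j k => ?_⟩
    · simp only [Pi.mul_apply, c1_mul]; rw [h1, h4]; rfl
    · simp only [Pi.mul_apply, c2_mul]; rw [h2, h5]
    · simp only [Pi.mul_apply, c3_mul]; rw [h3, h6]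
  one_mem' := by
    refine ⟨fun j k => by simp [c1_one], fun j k => rfl, fun j k => rfl⟩
  inv_mem' := by
    rintro a ⟨h1, h2, h3⟩
    refine ⟨fun j k => ?_, fun j k => ?_, fun j k => ?_⟩
    · simp only [Pi.inv_apply, c1_inv]; exact h1 j k
    · simp only [Pi.inv_apply, c2_inv]; exact h2 j k
    · simp only [Pi.inv_apply, c3_inv]; exact h3 j k

def K2 : Subgroup (Fin 3 → Fin 3 → D) where
  carrier := {h | (∀ i k, c2 (h i k) = 0) ∧
    (∀ i k, c1 (h i k) = c1 (h 0 k)) ∧ (∀ i k, c3 (h i k) = c3 (h i 0))}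
  mul_mem' := by
    rintro a b ⟨h1, h2, h3⟩ ⟨h4, h5, h6⟩
    refine ⟨fun j k => ?_, fun j k => ?_, fun j k => ?_⟩
    · simp only [Pi.mul_apply, c2_mul]; rw [h1, h4]; rfl
    · simp only [Pi.mul_apply, c1_mul]; rw [h2, h5]
    · simp only [Pi.mul_apply, c3_mul]; rw [h3, h6]
  one_mem' := by
    refine ⟨fun j k => by simp [c2_one], fun j k => rfl, fun j k => rfl⟩
  inv_mem' := by
    rintro a ⟨h1, h2, h3⟩
    refine ⟨fun j k => ?_, fun j k => ?_, fun j k => ?_⟩
    · simp only [Pi.inv_apply, c2_inv]; exact h1 j k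
    · simp only [Pi.inv_apply, c1_inv]; exact h2 j k
    · simp only [Pi.inv_apply, c3_inv]; exact h3 j k

def K3 : Subgroup (Fin 3 → Fin 3 → D) where
  carrier := {h | (∀ i j, c3 (h i j) = 0) ∧
    (∀ i j, c1 (h i j) = c1 (h 0 j)) ∧ (∀ i j, c2 (h i j) = c2 (h i 0))}
  mul_mem' := by
    rintro a b ⟨h1, h2, h3⟩ ⟨h4, h5, h6⟩
    refine ⟨fun j k => ?_, fun j k => ?_, fun j k => ?_⟩
    · simp only [Pi.mul_apply, c3_mul]; rw [h1, h4]; rfl
    · simp only [Pi.mul_apply, c1_mul]; rw [h2, h5]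
    · simp only [Pi.mul_apply, c2_mul]; rw [h3, h6]
  one_mem' := by
    refine ⟨fun j k => by simp [c3_one], fun j k => rfl, fun j k => rfl⟩
  inv_mem' := by
    rintro a ⟨h1, h2, h3⟩
    refine ⟨fun j k => ?_, fun j k => ?_, fun j k => ?_⟩
    · simp only [Pi.inv_apply, c3_inv]; exact h1 j k
    · simp only [Pi.inv_apply, c1_inv]; exact h2 j k
    · simp only [Pi.inv_apply, c2_inv]; exact h3 j k

instance : CommGroup K1 :=
  { (inferInstance : Group K1) with
    mul_comm := by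
      rintro ⟨a, ha⟩ ⟨b, hb⟩
      apply Subtype.ext
      funext j k
      exact comm1 _ _ (ha.1 j k) (hb.1 j k) }

instance : CommGroup K2 :=
  { (inferInstance : Group K2) with
    mul_comm := by
      rintro ⟨a, ha⟩ ⟨b, hb⟩
      apply Subtype.ext
      funext j k
      exact comm2 _ _ (ha.1 j k) (hb.1 j k) }

instance : CommGroup K3 :=
  { (inferInstance : Group K3) with
    mul_comm := by
      rintro ⟨a, ha⟩ ⟨b, hb⟩
      apply Subtype.ext
      funext j k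
      exact comm3 _ _ (ha.1 j k) (hb.1 j k) }

def φ1 : (Fin 3 → K1) →* BG where
  toFun h := ⟨fun i j k => (h i).1 j k, by
    refine ⟨fun i j k => ?_, fun i j k => ?_, fun i j k => ?_⟩
    · rw [(h i).2.1, (h 0).2.1]
    · exact (h i).2.2.1 j k
    · exact (h i).2.2.2 j k⟩
  map_one' := rfl
  map_mul' _ _ := rfl

def φ2 : (Fin 3 → K2) →* BG where
  toFun h := ⟨fun i j k => (h j).1 i k, by
    refine ⟨fun i j k => ?_, fun i j k => ?_, fun i j k => ?_⟩
    · exact (h j).2.2.1 i k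
    · rw [(h j).2.1, (h 0).2.1]
    · exact (h j).2.2.2 i k⟩
  map_one' := rfl
  map_mul' _ _ := rfl

def φ3 : (Fin 3 → K3) →* BG where
  toFun h := ⟨fun i j k => (h k).1 i j, by
    refine ⟨fun i j k => ?_, fun i j k => ?_, fun i j k => ?_⟩
    · exact (h k).2.2.1 i j
    · exact (h k).2.2.2 i j
    · rw [(h k).2.1, (h 0).2.1]⟩
  map_one' := rfl
  map_mul' _ _ := rfl

theorem φ1_inj : Function.Injective φ1 := by
  intro a b h
  funext i
  apply Subtype.ext
  funext j k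
  exact congrFun (congrFun (congrFun (congrArg Subtype.val h) i) j) k

theorem φ2_inj : Function.Injective φ2 := by
  intro a b h
  funext j
  apply Subtype.ext
  funext i k
  exact congrFun (congrFun (congrFun (congrArg Subtype.val h) i) j) k

theorem φ3_inj : Function.Injective φ3 := by
  intro a b h
  funext k
  apply Subtype.ext
  funext i j
  exact congrFun (congrFun (congrFun (congrArg Subtype.val h) i) j) k

theorem φ1_equiv : Equivar φ1 := by
  intro g
  refine ⟨{ toFun := fun h => ⟨fun j k => g.1 0 j k * h.1 j k * (g.1 0 j k)⁻¹, ?_⟩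
            map_one' := ?_
            map_mul' := ?_ }, ?_⟩
  · refine ⟨fun j k => ?_, fun j k => ?_, fun j k => ?_⟩
    · rw [c1_conj]; exact h.2.1 j k
    · rw [c2_conj, c2_conj]; exact h.2.2.1 j k
    · rw [c3_conj, c3_conj]; exact h.2.2.2 j k
  · apply Subtype.ext
    funext j k
    simp
  · intro a b
    apply Subtype.ext
    funext j k
    simp
  · intro h
    apply Subtype.ext
    funext i j k
    exact conj1 _ _ _ (g.2.1 i j k) ((h i).2.1 j k)

theorem φ2_equiv : Equivar φ2 := by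
  intro g
  refine ⟨{ toFun := fun h => ⟨fun i k => g.1 i 0 k * h.1 i k * (g.1 i 0 k)⁻¹, ?_⟩
            map_one' := ?_
            map_mul' := ?_ }, ?_⟩
  · refine ⟨fun j k => ?_, fun j k => ?_, fun j k => ?_⟩
    · rw [c2_conj]; exact h.2.1 j k
    · rw [c1_conj, c1_conj]; exact h.2.2.1 j k
    · rw [c3_conj, c3_conj]; exact h.2.2.2 j k
  · apply Subtype.ext
    funext j k
    simp
  · intro a b
    apply Subtype.ext
    funext j k
    simp
  · intro h
    apply Subtype.ext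
    funext i j k
    exact conj2 _ _ _ (g.2.2.1 i j k) ((h j).2.1 i k)

theorem φ3_equiv : Equivar φ3 := by
  intro g
  refine ⟨{ toFun := fun h => ⟨fun i j => g.1 i j 0 * h.1 i j * (g.1 i j 0)⁻¹, ?_⟩
            map_one' := ?_
            map_mul' := ?_ }, ?_⟩
  · refine ⟨fun j k => ?_, fun j k => ?_, fun j k => ?_⟩
    · rw [c3_conj]; exact h.2.1 j k
    · rw [c1_conj, c1_conj]; exact h.2.2.1 j k
    · rw [c2_conj, c2_conj]; exact h.2.2.2 j k
  · apply Subtype.ext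
    funext j k
    simp
  · intro a b
    apply Subtype.ext
    funext j k
    simp
  · intro h
    apply Subtype.ext
    funext i j k
    exact conj3 _ _ _ (g.2.2.2 i j k) ((h k).2.1 i j)

theorem K1_sq : ∀ k : K1, k * k = 1 := by
  rintro ⟨a, ha⟩
  apply Subtype.ext
  funext j k
  exact sq1 _ (ha.1 j k)

theorem K2_sq : ∀ k : K2, k * k = 1 := by
  rintro ⟨a, ha⟩
  apply Subtype.ext
  funext j k
  exact sq2 _ (ha.1 j k)

/-- the constant function with value the rotation by a quarter turn -/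
def rot : K3 := ⟨fun _ _ => DihedralGroup.r 1,
  ⟨fun _ _ => (by decide : c3 (DihedralGroup.r 1) = 0), fun _ _ => rfl, fun _ _ => rfl⟩⟩

theorem rot_sq : rot * rot ≠ 1 := by
  intro h
  have := congrFun (congrFun (congrArg Subtype.val h) 0) 0
  revert this
  change (DihedralGroup.r 1 : D) * DihedralGroup.r 1 = 1 → False
  decide

/-- exponent vectors -/
theorem indep_e (K : Type*) [CommGroup K] : Indep K ![1, 0, 0] ![0, 1, 0] ![0, 0, 1] := by
  intro a b c h
  have h0 := h 0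
  have h1 := h 1
  have h2 := h 2
  simp at h0 h1 h2
  exact ⟨h0, h1, h2⟩

theorem indep_1 (K : Type*) [CommGroup K] : Indep K ![1, 1, 1] ![0, 1, 0] ![0, 0, 1] := by
  intro a b c h
  have h0 := h 0
  have h1 := h 1
  have h2 := h 2
  simp at h0 h1 h2
  subst h0
  simpa using And.intro h1 h2

theorem indep_3 (K : Type*) [CommGroup K] : Indep K ![1, 0, 0] ![0, 1, 1] ![0, 0, 1] := by
  intro a b c h
  have h0 := h 0
  have h1 := h 1
  have h2 := h 2
  simp at h0 h1 h2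
  subst h0
  subst h1
  simpa using h2

theorem mem_sup3 {G K : Type*} [Group G] [CommGroup K] (φ : (Fin 3 → K) →* G) (b : Fin 3 → K) :
    φ b ∈ Sg φ ![1, 0, 0] ⊔ Sg φ ![0, 1, 0] ⊔ Sg φ ![0, 0, 1] := by
  have : b = (fun i => (b 0) ^ (![1, 0, 0] : Fin 3 → ℤ) i) *
      (fun i => (b 1) ^ (![0, 1, 0] : Fin 3 → ℤ) i) *
      (fun i => (b 2) ^ (![0, 0, 1] : Fin 3 → ℤ) i) := by
    funext i
    fin_cases i <;> simp
  rw [this, map_mul, map_mul]
  exact Subgroup.mul_mem_sup (Subgroup.mul_mem_sup (mem_Sg.2 ⟨_, rfl⟩) (mem_Sg.2 ⟨_, rfl⟩))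
    (mem_Sg.2 ⟨_, rfl⟩)

theorem exists_n1 : ∀ m : D, c3 m = 0 → ∃ n : D, c1 n = 0 ∧
    ∀ m' : D, c3 m' = 0 → c1 m' = c1 m → c2 (n⁻¹ * m') = 0 := by decide

/-- the diagonal of the third frame is below the join of the diagonal of the first frame and the
whole second frame. -/
theorem diag3_le : Sg φ3 (![1, 0, 0] + ![0, 1, 1]) ≤
    Sg φ1 ![1, 1, 1] ⊔ (Sg φ2 ![1, 0, 0] ⊔ Sg φ2 ![0, 1, 0] ⊔ Sg φ2 ![0, 0, 1]) := by
  intro x hx
  obtain ⟨k, rfl⟩ := mem_Sg.1 hx
  have hc3 : ∀ i j, c3 (k.1 i j) = 0 := k.2.1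
  have hc : ∀ i j, c1 (k.1 i j) = c1 (k.1 0 0) := by
    intro i j
    have e1 : c1 (k.1 0 j) = c2 (k.1 0 j) := by
      unfold c2; rw [hc3]; simp
    have e2 : c1 (k.1 0 0) = c2 (k.1 0 0) := by
      unfold c2; rw [hc3]; simp
    rw [k.2.2.1 i j, e1, k.2.2.2 0 j, ← e2]
  obtain ⟨n, hn1, hn2⟩ := exists_n1 (k.1 0 0) (hc3 0 0)
  let u : K1 := ⟨fun _ _ => n, ⟨fun _ _ => hn1, fun _ _ => rfl, fun _ _ => rfl⟩⟩
  let v : Fin 3 → K2 := fun j => ⟨fun i _ => n⁻¹ * k.1 i j, by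
    refine ⟨fun i l => hn2 _ (hc3 i j) (hc i j), fun i l => ?_, fun _ _ => rfl⟩
    rw [c1_mul, c1_mul, hc i j, hc 0 j]⟩
  have h1 : φ3 (fun i => k ^ (![1, 0, 0] + ![0, 1, 1] : Fin 3 → ℤ) i) =
      φ1 (fun i => u ^ (![1, 1, 1] : Fin 3 → ℤ) i) * φ2 v := by
    have a1 : (fun i => k ^ (![1, 0, 0] + ![0, 1, 1] : Fin 3 → ℤ) i) = fun _ => k := by
      funext i; fin_cases i <;> simp
    have a2 : (fun i => u ^ (![1, 1, 1] : Fin 3 → ℤ) i) = fun _ => u := by
      funext i; fin_cases i <;> simp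
    rw [a1, a2]
    apply Subtype.ext
    funext i j l
    change k.1 i j = n * (n⁻¹ * k.1 i j)
    group
  rw [h1]
  exact Subgroup.mul_mem_sup (mem_Sg.2 ⟨u, rfl⟩) (mem_sup3 φ2 v)

/-- No injective order-reversing lattice map from the normal subgroups of `BG` to the normal
subgroups of a group. -/
theorem no_anti {H : Type*} [Group H] (F : Anti BG H) (Finj : Function.Injective F.g) : False := by
  have s1 := F.sq_mem φ1_inj φ1_equiv K1_sq (indep_1 K1)
  have s2a := F.sq_mem φ2_inj φ2_equiv K2_sq (indep_e K2)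
  have s2b := F.sq_mem φ2_inj φ2_equiv K2_sq (indep_e K2).perm1
  have s2c := F.sq_mem φ2_inj φ2_equiv K2_sq (indep_e K2).perm2
  have hle : E φ3_equiv (![1, 0, 0] + ![0, 1, 1]) ≤ E φ1_equiv ![1, 1, 1] ⊔
      (E φ2_equiv ![1, 0, 0] ⊔ E φ2_equiv ![0, 1, 0] ⊔ E φ2_equiv ![0, 0, 1]) := by
    rw [NS.le_iff]
    exact diag3_le
  have hle' := F.anti hle
  rw [F.sup, F.sup, F.sup] at hle'
  have h3 := F.nonfano Finj φ3_inj φ3_equiv (indep_3 K3) (by
    intro t ht
    apply hle'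
    exact ⟨s1 t ht, ⟨⟨s2a t ht, s2b t ht⟩, s2c t ht⟩⟩)
  exact rot_sq (h3 rot)

end Pool.Agent.Lib_helper33
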