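import Pool.Agent.Lib_helper98.RenyiRed
import Pool.Agent.Lib_helper95.RC.Flag

/-!
# MP_859019_mp: flagged pairs of states with a difference of rank at most two
-/

set_option autoImplicit false
set_option linter.unusedSectionVars false

open scoped BigOperators ComplexOrder Kronecker MatrixOrder
open Matrix Polynomial

namespace Pool.Agent.Lib_helper98.Renyi

variable {b : Type} [Fintype b] [DecidableEq b]

/-- The two states are flagged sums: there are orthogonal projections `P i`, summing to the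
identity and commuting with both states, such that each `P i * (σ 0 - σ 1)` is a difference
`v v* - w w*` of two rank-one positive matrices. -/
def FlaggedRankTwo (σ : Fin 2 → Matrix b b ℂ) : Prop :=
  ∃ (m : ℕ) (P : Fin m → Matrix b b ℂ), (∀ i, (P i).IsHermitian) ∧ (∀ i, P i * P i = P i) ∧
    ∑ i, P i = 1 ∧ (∀ i x, P i * σ x = σ x * P i) ∧
    ∀ i, ∃ v w : b → ℂ, P i * (σ 0 - σ 1) = vecMulVec v (star v) - vecMulVec w (star w)

theorem comm_aeval {P A : Matrix b b ℂ} (h : P * A = A * P) (p : ℝ[X]) :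
    P * aeval A p = aeval A p * P := by
  induction p using Polynomial.induction_on' with
  | add p q hp hq => rw [map_add, Matrix.mul_add, Matrix.add_mul, hp, hq]
  | monomial n a =>
    have hc : Commute P (A ^ n) := Commute.pow_right h n
    rw [aeval_monomial, Algebra.algebraMap_eq_smul_one, Matrix.smul_mul, Matrix.one_mul,
      Matrix.mul_smul, Matrix.smul_mul]
    congr 1

theorem comm_mpow {P A : Matrix b b ℂ} (hA : A.IsHermitian) (h : P * A = A * P) (s : ℝ) :
    P * mpow A s = mpow A s * P := by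
  obtain ⟨p, hp, -⟩ := exists_poly_spectra (Finset.univ : Finset Unit) (fun _ => A) ∅ (supPow s)
  rw [mpow, cfc_eq_aeval hA (supPow s) p (hp () (Finset.mem_univ _))]
  exact comm_aeval h p

theorem comm_rhoOf {σ : Fin 2 → Matrix b b ℂ} {P : Matrix b b ℂ}
    (h : ∀ x, P * σ x = σ x * P) : P * rhoOf σ = rhoOf σ * P := by
  rw [rhoOf, Matrix.mul_smul, Matrix.smul_mul, Matrix.mul_add, Matrix.add_mul, h 0, h 1]

theorem comm_delOf {σ : Fin 2 → Matrix b b ℂ} {P : Matrix b b ℂ}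
    (h : ∀ x, P * σ x = σ x * P) : P * delOf σ = delOf σ * P := by
  rw [delOf, Matrix.mul_smul, Matrix.smul_mul, Matrix.mul_sub, Matrix.sub_mul, h 0, h 1]

theorem sig11_half {M : Matrix b b ℂ} (h : RC.Sig11 M) : RC.Sig11 ((1 / 2 : ℂ) • M) := by
  obtain ⟨v, w, rfl⟩ := h
  have hs : ((Real.sqrt (1 / 2) : ℝ) : ℂ) * ((Real.sqrt (1 / 2) : ℝ) : ℂ) = 1 / 2 := by
    rw [← Complex.ofReal_mul, Real.mul_self_sqrt (by norm_num)]
    push_cast
    ring
  have key : ∀ u : b → ℂ, (1 / 2 : ℂ) • vecMulVec u (star u) =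
      vecMulVec (((Real.sqrt (1 / 2) : ℝ) : ℂ) • u)
        (star (((Real.sqrt (1 / 2) : ℝ) : ℂ) • u)) := by
    intro u
    ext i j
    simp only [Matrix.smul_apply, vecMulVec_apply, Pi.smul_apply, Pi.star_apply, smul_eq_mul,
      star_mul', RCLike.star_def, Complex.conj_ofReal]
    rw [← hs]
    ring
  refine ⟨((Real.sqrt (1 / 2) : ℝ) : ℂ) • v, ((Real.sqrt (1 / 2) : ℝ) : ℂ) • w, ?_⟩
  rw [smul_sub, key v, key w]

theorem sig11_conj {M X : Matrix b b ℂ} (hX : Xᴴ = X) (h : RC.Sig11 M) :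
    RC.Sig11 (X * M * X) := by
  obtain ⟨v, w, rfl⟩ := h
  have key : ∀ u : b → ℂ, X * vecMulVec u (star u) * X =
      vecMulVec (X *ᵥ u) (star (X *ᵥ u)) := by
    intro u
    rw [mul_vecMulVec, vecMulVec_mul, star_mulVec, hX]
  refine ⟨X *ᵥ v, X *ᵥ w, ?_⟩
  rw [Matrix.mul_sub, Matrix.sub_mul, key v, key w]

theorem flag_state {σ : Fin 2 → Matrix b b ℂ} (h : ∀ x, IsDensity (σ x))
    (hf : FlaggedRankTwo σ) (α : ℝ) : RC.Flag (Aop α σ) (Dop α σ) := by
  obtain ⟨m, P, -, h2, h3, h4, h5⟩ := hf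
  have hρ := rhoOf_posSemidef h
  have hX := mpow_isHermitian hρ ((1 - α) / (2 * α))
  refine ⟨m, P, h2, h3, fun i => ?_, fun i => ?_, fun i => ?_⟩
  · exact comm_mpow hρ.1 (comm_rhoOf (h4 i)) _
  · have e1 := comm_mpow hρ.1 (comm_rhoOf (h4 i)) ((1 - α) / (2 * α))
    have e2 := comm_delOf (h4 i)
    rw [Dop, ← Matrix.mul_assoc, ← Matrix.mul_assoc, e1, Matrix.mul_assoc _ (P i), e2,
      Matrix.mul_assoc, Matrix.mul_assoc, e1]
    simp only [Matrix.mul_assoc]
  · have e1 := comm_mpow hρ.1 (comm_rhoOf (h4 i)) ((1 - α) / (2 * α))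
    have e3 : P i * Dop α σ = mpow (rhoOf σ) ((1 - α) / (2 * α)) *
        ((1 / 2 : ℂ) • (P i * (σ 0 - σ 1))) * mpow (rhoOf σ) ((1 - α) / (2 * α)) := by
      rw [Dop, delOf, ← Matrix.mul_assoc, ← Matrix.mul_assoc, e1]
      simp only [Matrix.mul_assoc, Matrix.mul_smul, Matrix.smul_mul]
    rw [e3]
    exact sig11_conj hX (sig11_half (h5 i))

theorem flag_state_one {σ : Fin 2 → Matrix b b ℂ} (hf : FlaggedRankTwo σ) :
    RC.Flag (rhoOf σ) (delOf σ) := by
  obtain ⟨m, P, -, h2, h3, h4, h5⟩ := hf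
  refine ⟨m, P, h2, h3, fun i => comm_rhoOf (h4 i), fun i => comm_delOf (h4 i), fun i => ?_⟩
  rw [delOf, Matrix.mul_smul]
  exact sig11_half (h5 i)

end Pool.Agent.Lib_helper98.Renyi
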