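import Pool.Agent.Lib_helper95.RC.Defs
import Pool.Agent.Lib_helper33.Renyi.Concave

/-! BLOCK LT: Lieb-Thirring inequality for even powers and nonnegative diagonal multipliers. -/

open scoped BigOperators ComplexOrder Kronecker MatrixOrder
open MeasureTheory Set Matrix

namespace Pool.Agent.RC

variable {ι κ : Type} [Fintype ι] [DecidableEq ι] [Fintype κ] [DecidableEq κ]

open Pool.Agent.Lib_helper33.Renyi in
lemma LT.pos (q : κ → ℝ) (hq : ∀ k, 0 < q k) (W : Matrix κ κ ℂ) (hW : W.IsHermitian)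
    (n : ℕ) (hn : Even n) (hn0 : n ≠ 0) :
    Phi n W q ≤ ∑ k, q k * ((W ^ n) k k).re := by
  have hn' : (0 : ℝ) < n := by exact_mod_cast Nat.pos_of_ne_zero hn0
  have hc := phi_line hW hn hn0 (fun _ => 1) q (fun _ => one_pos) hq
  have hP : MD (fun t => PhiMat n W (fun j => 1 + t * (q j - 1)))
      (diagonal (fun j => (((q j - 1) / n : ℝ) : ℂ)) *
        PhiMat n W (fun j => 1 + (0 : ℝ) * (q j - 1))) 0 := by
    intro i j
    simp only [PhiMat, diagonal_mul]
    have h1 : HasDerivAt (fun t : ℝ => 1 + t * (q i - 1)) (q i - 1) 0 := by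
      simpa using ((hasDerivAt_id (0 : ℝ)).mul_const (q i - 1)).const_add 1
    have h2 : HasDerivAt (fun t : ℝ => (1 + t * (q i - 1)) ^ ((n : ℝ)⁻¹))
        ((q i - 1) / n) 0 := by
      have h3 := h1.rpow_const (p := (n : ℝ)⁻¹) (Or.inl (by simp))
      refine h3.congr_deriv ?_
      simp [div_eq_mul_inv]
    have h4 := (h2.ofReal_comp).mul_const (W i j)
    refine h4.congr_deriv ?_
    simp
  have hD := hasDerivAt_trn hP n
  have hle := hc.slope_le_of_hasDerivAt (x := 0) (y := 1) (by simp) (by simp) one_pos hD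
  rw [slope_def_field] at hle
  simp only [one_mul, zero_mul, add_zero, sub_zero, div_one] at hle
  have e1 : PhiMat n W (fun _ => (1 : ℝ)) = W := by
    unfold PhiMat
    simp
  rw [e1] at hle
  have e0 : Phi n W (fun _ => (1 : ℝ)) = ∑ k, ((W ^ n) k k).re := by
    unfold Phi trn
    rw [e1, Matrix.trace, Complex.re_sum]
    rfl
  have e2 : Phi n W (fun j => 1 + (q j - 1)) = Phi n W q := by
    congr 1; ext j; ring
  rw [e2, e0] at hle
  have e3 : (n : ℝ) * ((diagonal (fun j => (((q j - 1) / n : ℝ) : ℂ)) * W ^ n).trace).re =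
      ∑ k, (q k - 1) * ((W ^ n) k k).re := by
    rw [Matrix.trace, Complex.re_sum, Finset.mul_sum]
    refine Finset.sum_congr rfl fun k _ => ?_
    rw [diag_apply, diagonal_mul, Complex.re_ofReal_mul]
    field_simp
  rw [e3] at hle
  have e4 : ∑ k, (q k - 1) * ((W ^ n) k k).re =
      ∑ k, q k * ((W ^ n) k k).re - ∑ k, ((W ^ n) k k).re := by
    rw [← Finset.sum_sub_distrib]
    refine Finset.sum_congr rfl fun k _ => by ring
  rw [e4] at hle
  linarith

open Pool.Agent.Lib_helper33.Renyi in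
/-- Lieb-Thirring inequality for even powers. -/
theorem lt_ineq (c : κ → ℝ) (hc : ∀ k, 0 ≤ c k) (W : Matrix κ κ ℂ) (hW : W.IsHermitian)
    (n : ℕ) (hn : Even n) :
    (((dg c * W) ^ n).trace).re ≤ ∑ k, c k ^ n * ((W ^ n) k k).re := by
  rcases Nat.eq_zero_or_pos n with h0 | hpos
  · subst h0
    simp [Matrix.trace]
  have hn0 : n ≠ 0 := hpos.ne'
  have key : ∀ ε : ℝ, 0 < ε → Phi n W (fun k => c k ^ n + ε) ≤
      ∑ k, (c k ^ n + ε) * ((W ^ n) k k).re := fun ε hε =>
    LT.pos _ (fun k => add_pos_of_nonneg_of_pos (pow_nonneg (hc k) n) hε) W hW n hn hn0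
  have h1 : Continuous fun ε : ℝ => Phi n W (fun k => c k ^ n + ε) :=
    (continuousOn_Phi n hn0 W).comp (continuous_pi fun j => continuous_const.add continuous_id)
  have h2 : Continuous fun ε : ℝ => ∑ k, (c k ^ n + ε) * ((W ^ n) k k).re := by fun_prop
  have t1 := (h1.tendsto 0).mono_left (nhdsWithin_le_nhds (s := Ioi (0 : ℝ)))
  have t2 := (h2.tendsto 0).mono_left (nhdsWithin_le_nhds (s := Ioi (0 : ℝ)))
  have h3 := le_of_tendsto_of_tendsto t1 t2 (by
    filter_upwards [self_mem_nhdsWithin] with ε hε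
    exact key ε hε)
  simp only [add_zero] at h3
  refine le_trans (le_of_eq ?_) h3
  have e : (fun k => (c k : ℂ)) = fun j => (((c j ^ n) ^ ((n : ℝ)⁻¹) : ℝ) : ℂ) := by
    ext k
    rw [Real.pow_rpow_inv_natCast (hc k) hn0]
  unfold Phi trn PhiMat dg
  rw [e]

end Pool.Agent.RC
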