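import Pool.Agent.Lib_helper33.RC_AlignRed

/-! Rank-one reduction. -/

open scoped BigOperators ComplexOrder Kronecker MatrixOrder
open MeasureTheory Set Matrix

namespace Pool.Agent.RC

variable {ι κ : Type} [Fintype ι] [DecidableEq ι] [Fintype κ] [DecidableEq κ]

open AR

open Pool.Agent.Lib_helper33.Renyi in
theorem red_one (A : Matrix ι ι ℂ) (hA : A.PosDef) (x : ι → ℂ) (b : κ → ℝ)
    (hb : ∀ k, 0 < b k) (E : Matrix κ κ ℂ) (n : ℕ) (hn : 0 < n) (r : ℝ) (hr : 0 < r) :
    tn (A ⊗ₖ dg b) (vecMulVec x (star x) ⊗ₖ E) n r =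
      (((dg (fun k => (b k)⁻¹ * (form A x x (r / b k)).re) * E) ^ n).trace).re := by
  obtain ⟨U, a, h, h', ha, hAU⟩ := exists_diag_pos hA
  set W : Matrix (ι × κ) (ι × κ) ℂ := U ⊗ₖ (1 : Matrix κ κ ℂ) with hW
  have hW1 : Wᴴ * W = 1 := by
    rw [hW, conjTranspose_kronecker, ← mul_kronecker_mul, h, conjTranspose_one, Matrix.one_mul,
      one_kronecker_one]
  have hW2 : W * Wᴴ = 1 := by
    rw [hW, conjTranspose_kronecker, ← mul_kronecker_mul, h', conjTranspose_one, Matrix.one_mul,
      one_kronecker_one]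
  have hta : ∀ p : ι × κ, 0 < ta a b p + r := fun p =>
    add_pos (mul_pos (ha p.1) (hb p.2)) hr
  have e0 : A ⊗ₖ dg b = W * dg (ta a b) * Wᴴ := by
    have : dg (ta a b) = dg a ⊗ₖ dg b := by
      unfold dg ta
      rw [diagonal_kronecker_diagonal]
      congr 1
      ext p
      push_cast
      rfl
    rw [this, hW, conjTranspose_kronecker, ← mul_kronecker_mul, ← mul_kronecker_mul, ← hAU,
      conjTranspose_one, Matrix.one_mul, Matrix.mul_one]
  set y : ι → ℂ := Uᴴ *ᵥ x with hy
  have e1 : vecMulVec x (star x) ⊗ₖ E = W * (vecMulVec y (star y) ⊗ₖ E) * Wᴴ := by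
    rw [hW, conjTranspose_kronecker, ← mul_kronecker_mul, ← mul_kronecker_mul,
      conjTranspose_one, Matrix.one_mul, Matrix.mul_one, mul_vecMulVec, vecMulVec_mul, hy,
      mulVec_mulVec, h', one_mulVec, star_mulVec, conjTranspose_conjTranspose, vecMul_vecMul, h',
      vecMul_one]
  set V : Matrix (ι × κ) κ ℂ := Matrix.of fun p j => if p.2 = j then y p.1 else 0 with hV
  have e2 : vecMulVec y (star y) ⊗ₖ E = V * E * Vᴴ := by
    ext p q
    obtain ⟨i, j⟩ := p
    obtain ⟨i', j'⟩ := q
    have h1 : ∀ k, (V * E) (i, j) k = y i * E j k := by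
      intro k
      rw [Matrix.mul_apply]
      simp [hV]
    rw [Matrix.mul_apply]
    simp only [h1, conjTranspose_apply, kroneckerMap_apply, vecMulVec_apply, Pi.star_apply]
    rw [Finset.sum_eq_single j']
    · simp only [hV, Matrix.of_apply, if_true]
      ring
    · intro l _ hl
      simp only [hV, Matrix.of_apply, if_neg (Ne.symm hl), star_zero, mul_zero]
    · intro hh; exact absurd (Finset.mem_univ _) hh
  have e3 : Vᴴ * Res (dg (ta a b)) r * V =
      dg (fun k => (b k)⁻¹ * (form A x x (r / b k)).re) := by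
    rw [Res_dg hta]
    ext j k
    rw [Matrix.mul_apply]
    unfold dg
    simp only [mul_diagonal, conjTranspose_apply]
    rw [Fintype.sum_prod_type, diagonal_apply]
    have hpos : ∀ i, 0 < a i + r / b j := fun i => add_pos (ha i) (div_pos hr (hb j))
    by_cases hjk : j = k
    · subst hjk
      rw [if_pos rfl, form_diag h h' hAU x x hpos, gbe_self, Complex.ofReal_re,
        ← gal_scale _ _ _ _ (hb j)]
      unfold gal
      push_cast
      refine Finset.sum_congr rfl fun i _ => ?_
      rw [Finset.sum_eq_single j]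
      · simp only [hV, Matrix.of_apply, if_true]
        rw [Complex.normSq_eq_conj_mul_self]
        unfold ta
        simp only [Complex.star_def]
        push_cast
        rw [add_comm (r : ℂ)]
        ring
      · intro l _ hl
        simp [hV, hl]
      · intro hh; exact absurd (Finset.mem_univ _) hh
    · rw [if_neg hjk]
      refine Finset.sum_eq_zero fun i _ => Finset.sum_eq_zero fun l _ => ?_
      by_cases h1 : l = j
      · subst h1
        simp [hV, hjk]
      · simp [hV, h1]
  rw [e0, e1, tn_conj hW1 hW2, e2]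
  unfold tn
  change trn _ n = trn _ n
  rw [show Res (dg (ta a b)) r * (V * E * Vᴴ) = (Res (dg (ta a b)) r * V * E) * Vᴴ by
    simp only [Matrix.mul_assoc], trn_cycle _ _ hn.ne',
    show Vᴴ * (Res (dg (ta a b)) r * V * E) = (Vᴴ * Res (dg (ta a b)) r * V) * E by
    simp only [Matrix.mul_assoc], e3]

end Pool.Agent.RC
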