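import Pool.Agent.Lib_helper33.RC_AlignRed

/-! BLOCK RES: resolvent forms are Stieltjes sums; increasing approximation of `lam`. -/

open scoped BigOperators ComplexOrder Kronecker MatrixOrder Topology
open MeasureTheory Set Matrix Filter

namespace Pool.Agent.RC

variable {ι κ : Type} [Fintype ι] [DecidableEq ι] [Fintype κ] [DecidableEq κ]

open AR

open Pool.Agent.Lib_helper33.Renyi in
theorem resForm_form (A : Matrix ι ι ℂ) (hA : A.PosDef) (v : ι → ℂ) :
    ResForm (fun s => (form A v v s).re) := by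
  obtain ⟨U, a, h, h', ha, hAU⟩ := exists_diag_pos hA
  refine ⟨Fintype.card ι, fun k => a ((Fintype.equivFin ι).symm k),
    fun k => Complex.normSq ((Uᴴ *ᵥ v) ((Fintype.equivFin ι).symm k)), fun i => ha _,
    fun i => Complex.normSq_nonneg _, ?_⟩
  intro s hs
  have hpos : ∀ i, 0 < a i + s := fun i => by have := ha i; linarith
  beta_reduce
  rw [form_diag h h' hAU v v hpos, gbe_self, Complex.ofReal_re]
  unfold gal
  rw [← Equiv.sum_comp (Fintype.equivFin ι).symm]
  refine Finset.sum_congr rfl fun k _ => ?_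
  rw [mul_one, add_comm s]

namespace RES

/-- compression to the orthogonal complement of `z` -/
lemma exists_Q {z : ι → ℂ} (hz : z ≠ 0) :
    ∃ (κ' : Type) (_ : Fintype κ') (_ : DecidableEq κ') (Q : Matrix ι κ' ℂ),
      Qᴴ * Q = 1 ∧ ((star z ⬝ᵥ z) • (Q * Qᴴ) = (star z ⬝ᵥ z) • (1 : Matrix ι ι ℂ)
        - vecMulVec z (star z)) := by
  classical
  set N : ℂ := star z ⬝ᵥ z with hN
  have hN0 : N ≠ 0 := by
    rw [hN]
    intro h
    exact hz (dotProduct_star_self_eq_zero.mp h)
  have hNstar : star N = N := by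
    rw [hN, dotProduct, star_sum]
    refine Finset.sum_congr rfl fun i _ => ?_
    rw [star_mul', Pi.star_apply, star_star, mul_comm]
  set P : Matrix ι ι ℂ := 1 - N⁻¹ • vecMulVec z (star z) with hP
  have hvh : (vecMulVec z (star z)).IsHermitian := by
    ext i j
    simp [conjTranspose_apply, vecMulVec_apply, mul_comm]
  have hPh : P.IsHermitian := by
    rw [hP]
    refine IsHermitian.sub isHermitian_one ?_
    rw [Matrix.IsHermitian, conjTranspose_smul, hvh.eq, star_inv₀, hNstar]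
  have hvv : vecMulVec z (star z) * vecMulVec z (star z) = N • vecMulVec z (star z) := by
    rw [vecMulVec_mul_vecMulVec, hN]
    ext i j
    simp [vecMulVec_apply]
    ring
  have hPP : P * P = P := by
    rw [hP, Matrix.sub_mul, Matrix.one_mul, Matrix.mul_sub, Matrix.mul_one, Matrix.smul_mul,
      Matrix.mul_smul, hvv, smul_smul, smul_smul, mul_assoc, inv_mul_cancel₀ hN0, mul_one]
    simp
  obtain ⟨U, l, hU, hU', hPU⟩ := Pool.Agent.Lib_helper33.Renyi.exists_diag hPh
  have hl : ∀ i, l i = 0 ∨ l i = 1 := by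
    intro i
    have h1 : Matrix.diagonal (fun i => (l i : ℂ)) * Matrix.diagonal (fun i => (l i : ℂ)) =
        Matrix.diagonal (fun i => (l i : ℂ)) := by
      have e1 : Matrix.diagonal (fun i => (l i : ℂ)) = Uᴴ * P * U := by
        rw [hPU]
        calc Matrix.diagonal (fun i => (l i : ℂ)) =
            (Uᴴ * U) * Matrix.diagonal (fun i => (l i : ℂ)) * (Uᴴ * U) := by
              rw [hU, Matrix.one_mul, Matrix.mul_one]
          _ = _ := by simp only [Matrix.mul_assoc]
      rw [e1]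
      calc Uᴴ * P * U * (Uᴴ * P * U) = Uᴴ * P * (U * Uᴴ) * P * U := by
            simp only [Matrix.mul_assoc]
        _ = Uᴴ * (P * P) * U := by rw [hU', Matrix.mul_one]; simp only [Matrix.mul_assoc]
        _ = _ := by rw [hPP]
    rw [diagonal_mul_diagonal] at h1
    have h2 := congrFun (congrFun h1 i) i
    rw [diagonal_apply_eq, diagonal_apply_eq] at h2
    have h3 : l i * l i = l i := by exact_mod_cast h2
    have h4 : l i * (l i - 1) = 0 := by linarith
    rcases mul_eq_zero.mp h4 with h | h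
    · exact Or.inl h
    · right; linarith
  refine ⟨{i // l i = 1}, inferInstance, inferInstance, U.submatrix id Subtype.val, ?_, ?_⟩
  · ext i j
    have h1 := congrFun (congrFun hU i.1) j.1
    rw [Matrix.mul_apply] at h1 ⊢
    simp only [conjTranspose_apply, submatrix_apply, id] at h1 ⊢
    rw [h1, one_apply, one_apply]
    simp only [Subtype.ext_iff]
  · have hQQ : U.submatrix id (Subtype.val : {i // l i = 1} → ι) *
        (U.submatrix id (Subtype.val : {i // l i = 1} → ι))ᴴ = P := by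
      rw [hPU]
      ext i j
      rw [Matrix.mul_apply, Matrix.mul_apply]
      simp only [conjTranspose_apply, submatrix_apply, id, mul_diagonal]
      rw [← Finset.sum_subtype (Finset.univ.filter fun i => l i = 1) (by simp)
        (fun x => U i x * star (U j x)), Finset.sum_filter]
      refine Finset.sum_congr rfl fun x _ => ?_
      rcases hl x with h0 | h1
      · simp [h0]
      · simp [h1]
    rw [hQQ, hP, smul_sub, smul_smul, mul_inv_cancel₀ hN0, one_smul]

omit [DecidableEq ι] in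
lemma star_dot_self_ne {z : ι → ℂ} (hz : z ≠ 0) : star z ⬝ᵥ z ≠ 0 := by
  intro h
  exact hz (dotProduct_star_self_eq_zero.mp h)

lemma res_mul {A : Matrix ι ι ℂ} (hA : A.PosDef) {s : ℝ} (hs : 0 ≤ s) :
    (A + (s : ℂ) • (1 : Matrix ι ι ℂ)) * Res A s = 1 ∧
      Res A s * (A + (s : ℂ) • (1 : Matrix ι ι ℂ)) = 1 := by
  have h1 : (A + (s : ℂ) • (1 : Matrix ι ι ℂ)).PosDef := by
    refine hA.add_posSemidef ?_
    refine PosSemidef.smul PosSemidef.one ?_
    exact_mod_cast hs
  have h2 := h1.isUnit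
  unfold Res
  rw [Matrix.isUnit_iff_isUnit_det] at h2
  exact ⟨Matrix.mul_nonsing_inv _ h2, Matrix.nonsing_inv_mul _ h2⟩

/-- the compression lemma -/
lemma compress (M : Matrix ι ι ℂ) (hM : M.PosDef) (ξ z : ι → ℂ) (hz : z ≠ 0) :
    ∃ (κ' : Type) (_ : Fintype κ') (_ : DecidableEq κ') (M' : Matrix κ' κ' ℂ) (ξ' : κ' → ℂ),
      M'.PosDef ∧ ∀ s : ℝ, 0 ≤ s →
        (form M ξ ξ s).re - ‖form M ξ z s‖ ^ 2 / (form M z z s).re = (form M' ξ' ξ' s).re := by
  obtain ⟨κ', i1, i2, Q, hQ, hQQ⟩ := exists_Q hz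
  have hN0 := star_dot_self_ne hz
  have hQz : Qᴴ *ᵥ z = 0 := by
    have h1 : (Q * Qᴴ) *ᵥ z = 0 := by
      have h2 : ((star z ⬝ᵥ z) • (Q * Qᴴ)) *ᵥ z = 0 := by
        rw [hQQ, sub_mulVec, smul_mulVec, one_mulVec]
        ext i
        simp only [Pi.sub_apply, Pi.smul_apply, Pi.zero_apply, smul_eq_mul, mulVec, dotProduct,
          vecMulVec_apply, Pi.star_apply]
        rw [Finset.sum_mul, ← Finset.sum_sub_distrib]
        refine Finset.sum_eq_zero fun j _ => by ring
      rw [smul_mulVec] at h2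
      exact (smul_eq_zero.mp h2).resolve_left hN0
    have h3 : star (Qᴴ *ᵥ z) ⬝ᵥ (Qᴴ *ᵥ z) = 0 := by
      rw [star_mulVec, conjTranspose_conjTranspose, ← dotProduct_mulVec, mulVec_mulVec, h1,
        dotProduct_zero]
    exact dotProduct_star_self_eq_zero.mp h3
  have hQinj : Function.Injective Q.mulVec := by
    intro x y hxy
    have : Qᴴ *ᵥ (Q *ᵥ x) = Qᴴ *ᵥ (Q *ᵥ y) := by rw [show Q *ᵥ x = Q *ᵥ y from hxy]
    rw [mulVec_mulVec, mulVec_mulVec, hQ, one_mulVec, one_mulVec] at this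
    exact this
  refine ⟨κ', i1, i2, Qᴴ * M * Q, Qᴴ *ᵥ ξ, hM.conjTranspose_mul_mul_same hQinj, ?_⟩
  intro s hs
  obtain ⟨r1, r2⟩ := res_mul hM hs
  have hzz := (form_facts M hM z z s hs)
  obtain ⟨U, a, h, h', ha, hAU⟩ := exists_diag_pos hM
  have hpos : ∀ i, 0 < a i + s := fun i => by have := ha i; linarith
  have hzpos := form_self_pos h h' hAU hz hpos
  have hzself : form M z z s = ((form M z z s).re : ℂ) :=
    Complex.ext (by simp) (by simp [hzz.2.1])
  have hz0 : form M z z s ≠ 0 := by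
    rw [hzself]; exact_mod_cast hzpos.ne'
  set R := Res M s with hR
  set N : Matrix ι ι ℂ := R - (form M z z s)⁻¹ • (vecMulVec (R *ᵥ z) (star z ᵥ* R)) with hN
  have hNz : N *ᵥ z = 0 := by
    rw [hN, sub_mulVec, smul_mulVec]
    have : vecMulVec (R *ᵥ z) (star z ᵥ* R) *ᵥ z = (form M z z s) • (R *ᵥ z) := by
      rw [vecMulVec_mulVec, form, ← hR, dotProduct_mulVec]
      ext i
      simp [mul_comm]
    rw [this, smul_smul, inv_mul_cancel₀ hz0, one_smul, sub_self]
  have hzN : star z ᵥ* N = 0 := by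
    rw [hN, vecMul_sub, vecMul_smul]
    have : star z ᵥ* vecMulVec (R *ᵥ z) (star z ᵥ* R) = (form M z z s) • (star z ᵥ* R) := by
      rw [vecMul_vecMulVec, form, ← hR]
    rw [this, smul_smul, inv_mul_cancel₀ hz0, one_smul, sub_self]
  -- P N = N, N P = N
  have hPN : (Q * Qᴴ) * N = N := by
    have h1 : ((star z ⬝ᵥ z) • (Q * Qᴴ)) * N = (star z ⬝ᵥ z) • N := by
      rw [hQQ, Matrix.sub_mul, Matrix.smul_mul, Matrix.one_mul, vecMulVec_mul, hzN]
      have : vecMulVec z (0 : ι → ℂ) = 0 := by ext; simp [vecMulVec_apply]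
      rw [this, sub_zero]
    rw [Matrix.smul_mul] at h1
    exact smul_right_injective _ hN0 h1
  have hNP : N * (Q * Qᴴ) = N := by
    have h1 : N * ((star z ⬝ᵥ z) • (Q * Qᴴ)) = (star z ⬝ᵥ z) • N := by
      rw [hQQ, Matrix.mul_sub, Matrix.mul_smul, Matrix.mul_one, mul_vecMulVec, hNz]
      have : vecMulVec (0 : ι → ℂ) (star z) = 0 := by ext; simp [vecMulVec_apply]
      rw [this, sub_zero]
    rw [Matrix.mul_smul] at h1
    exact smul_right_injective _ hN0 h1
  have hMN : (M + (s : ℂ) • (1 : Matrix ι ι ℂ)) * N =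
      1 - (form M z z s)⁻¹ • vecMulVec z (star z ᵥ* R) := by
    rw [hN, Matrix.mul_sub, r1, Matrix.mul_smul, mul_vecMulVec, mulVec_mulVec, r1, one_mulVec]
  have hinv : Res (Qᴴ * M * Q) s = Qᴴ * N * Q := by
    unfold Res
    refine inv_eq_right_inv ?_
    have e1 : Qᴴ * M * Q + (s : ℂ) • (1 : Matrix κ' κ' ℂ) =
        Qᴴ * (M + (s : ℂ) • (1 : Matrix ι ι ℂ)) * Q := by
      rw [Matrix.mul_add, Matrix.add_mul, Matrix.mul_smul, Matrix.smul_mul, Matrix.mul_one, hQ]
    rw [e1]
    calc Qᴴ * (M + (s : ℂ) • (1 : Matrix ι ι ℂ)) * Q * (Qᴴ * N * Q)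
        = Qᴴ * ((M + (s : ℂ) • (1 : Matrix ι ι ℂ)) * ((Q * Qᴴ) * N)) * Q := by
          simp only [Matrix.mul_assoc]
      _ = Qᴴ * (1 - (form M z z s)⁻¹ • vecMulVec z (star z ᵥ* R)) * Q := by rw [hPN, hMN]
      _ = 1 := by
          rw [Matrix.mul_sub, Matrix.sub_mul, Matrix.mul_one, hQ, Matrix.mul_smul, mul_vecMulVec,
            hQz]
          have : vecMulVec (0 : κ' → ℂ) (star z ᵥ* R) = 0 := by ext; simp [vecMulVec_apply]
          rw [this, smul_zero, Matrix.zero_mul, sub_zero]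
  have hform : form (Qᴴ * M * Q) (Qᴴ *ᵥ ξ) (Qᴴ *ᵥ ξ) s =
      form M ξ ξ s - form M ξ z s * form M z ξ s / form M z z s := by
    unfold form
    rw [hinv, mulVec_mulVec, star_mulVec, conjTranspose_conjTranspose, ← dotProduct_mulVec,
      mulVec_mulVec, show Q * (Qᴴ * N * Q * Qᴴ) = (Q * Qᴴ) * (N * (Q * Qᴴ)) by
        simp only [Matrix.mul_assoc], hNP, hPN, hN, sub_mulVec, smul_mulVec, dotProduct_sub,
      dotProduct_smul, vecMulVec_mulVec]
    unfold form
    rw [← hR]
    congr 1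
    have : star ξ ⬝ᵥ (MulOpposite.op (star z ᵥ* R ⬝ᵥ ξ) • R *ᵥ z) =
        (star ξ ⬝ᵥ (R *ᵥ z)) * (star z ⬝ᵥ (R *ᵥ ξ)) := by
      rw [dotProduct_smul, dotProduct_mulVec (star z) R ξ]
      rfl
    rw [this, smul_eq_mul]
    field_simp
  rw [hform]
  obtain ⟨-, -, hst, -, -⟩ := form_facts M hM ξ z s hs
  rw [hst]
  have e3 : form M ξ z s * star (form M ξ z s) = ((‖form M ξ z s‖ ^ 2 : ℝ) : ℂ) := by
    rw [Complex.star_def, Complex.mul_conj, Complex.normSq_eq_norm_sq]
  rw [e3, Complex.sub_re]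
  congr 1
  conv_rhs => rw [hzself]
  rw [← Complex.ofReal_div, Complex.ofReal_re]

/-- block diagonal pair: forms add up -/
lemma form_fromBlocks {m : Type} [Fintype m] [DecidableEq m] (A : Matrix ι ι ℂ)
    (B : Matrix m m ℂ) (hA : A.PosDef) (hB : B.PosDef) (x y : ι → ℂ) (x' y' : m → ℂ) {s : ℝ}
    (hs : 0 ≤ s) :
    form (fromBlocks A 0 0 B) (Sum.elim x x') (Sum.elim y y') s = form A x y s + form B x' y' s := by
  have e : Res (fromBlocks A 0 0 B) s = fromBlocks (Res A s) 0 0 (Res B s) := by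
    obtain ⟨a1, -⟩ := res_mul hA hs
    obtain ⟨b1, -⟩ := res_mul hB hs
    conv_lhs => unfold Res
    refine inv_eq_right_inv ?_
    have e1 : fromBlocks A 0 0 B + (s : ℂ) • (1 : Matrix (ι ⊕ m) (ι ⊕ m) ℂ) =
        fromBlocks (A + (s : ℂ) • 1) 0 0 (B + (s : ℂ) • 1) := by
      rw [← fromBlocks_one, fromBlocks_smul, fromBlocks_add]
      simp
    rw [e1, fromBlocks_multiply, a1, b1]
    simp [fromBlocks_one]
  have est : star (Sum.elim x x') = Sum.elim (star x) (star x') := by
    ext k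
    rcases k with k | k <;> simp
  unfold form
  rw [e, fromBlocks_mulVec, est, sumElim_dotProduct_sumElim]
  simp

omit [DecidableEq ι] in
lemma posDef_fromBlocks {m : Type} [Fintype m] [DecidableEq m] {A : Matrix ι ι ℂ}
    {B : Matrix m m ℂ} (hA : A.PosDef) (hB : B.PosDef) : (fromBlocks A 0 0 B).PosDef := by
  refine PosDef.of_dotProduct_mulVec_pos ?_ ?_
  · rw [isHermitian_fromBlocks_iff]
    exact ⟨hA.isHermitian, by simp, by simp, hB.isHermitian⟩
  · intro x hx
    have e : x = Sum.elim (x ∘ Sum.inl) (x ∘ Sum.inr) := (Sum.elim_comp_inl_inr x).symm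
    have est : star (Sum.elim (x ∘ Sum.inl) (x ∘ Sum.inr)) =
        Sum.elim (star (x ∘ Sum.inl)) (star (x ∘ Sum.inr)) := by
      ext k
      rcases k with k | k <;> simp
    rw [e, fromBlocks_mulVec, est, sumElim_dotProduct_sumElim]
    simp only [Sum.elim_comp_inl, Sum.elim_comp_inr, Matrix.zero_mulVec, add_zero, zero_add]
    by_cases h1 : x ∘ Sum.inl = 0
    · have h2 : x ∘ Sum.inr ≠ 0 := by
        intro h2
        apply hx
        rw [e, h1, h2]
        ext k; rcases k with k | k <;> simp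
      rw [h1]
      simp only [star_zero, Matrix.mulVec_zero, dotProduct_zero, zero_add]
      exact hB.dotProduct_mulVec_pos h2
    · exact add_pos_of_pos_of_nonneg (hA.dotProduct_mulVec_pos h1)
        (hB.posSemidef.dotProduct_mulVec_nonneg _)

lemma posDef_dg {K : ℕ} {c : Fin K → ℝ} (hc : ∀ i, 0 < c i) : (dg c).PosDef := by
  unfold dg
  rw [posDef_diagonal_iff]
  intro i
  exact_mod_cast hc i

lemma form_dg {K : ℕ} {c : Fin K → ℝ} (hc : ∀ i, 0 < c i) (x y : Fin K → ℂ) {s : ℝ}
    (hs : 0 ≤ s) : form (dg c) x y s = ∑ i, star (x i) * y i / ((c i + s : ℝ) : ℂ) := by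
  unfold form
  rw [Res_dg (fun i => by have := hc i; linarith)]
  unfold dg dotProduct
  refine Finset.sum_congr rfl fun i _ => ?_
  rw [mulVec_diagonal, Pi.star_apply]
  push_cast
  ring

/-- one step of the iteration preserves Stieltjes sums -/
lemma resForm_step (A : Matrix ι ι ℂ) (hA : A.PosDef) (v w : ι → ℂ) (hw : w ≠ 0) (l : ℝ → ℝ)
    (hl : ResForm l) : ResForm (fun s => (form A v v s).re -
      ‖form A v w s‖ ^ 2 / ((form A w w s).re + l s)) := by
  obtain ⟨K, c, u, hc, hu, hlu⟩ := hl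
  set M := fromBlocks A 0 0 (dg c) with hM
  have hMp : M.PosDef := posDef_fromBlocks hA (posDef_dg hc)
  set z : ι ⊕ Fin K → ℂ := Sum.elim w (fun i => ((Real.sqrt (u i) : ℝ) : ℂ)) with hz
  set ξ : ι ⊕ Fin K → ℂ := Sum.elim v 0 with hξ
  have hz0 : z ≠ 0 := by
    intro h0
    apply hw
    ext i
    have := congrFun h0 (Sum.inl i)
    simpa [hz] using this
  obtain ⟨κ', i1, i2, M', ξ', hM', hform⟩ := compress M hMp ξ z hz0
  obtain ⟨K', c', u', hc', hu', hf⟩ := resForm_form M' hM' ξ'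
  refine ⟨K', c', u', hc', hu', ?_⟩
  intro s hs
  rw [← hf s hs]
  beta_reduce
  rw [← hform s hs]
  have e1 : form M ξ ξ s = form A v v s := by
    rw [hM, hξ, form_fromBlocks A _ hA (posDef_dg hc) _ _ _ _ hs, form_dg hc _ _ hs]
    simp
  have e2 : form M ξ z s = form A v w s := by
    rw [hM, hξ, hz, form_fromBlocks A _ hA (posDef_dg hc) _ _ _ _ hs, form_dg hc _ _ hs]
    simp
  have e3 : (form M z z s).re = (form A w w s).re + l s := by
    rw [hM, hz, form_fromBlocks A _ hA (posDef_dg hc) _ _ _ _ hs, form_dg hc _ _ hs,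
      Complex.add_re, hlu s hs, Complex.re_sum]
    congr 1
    refine Finset.sum_congr rfl fun i _ => ?_
    rw [show star ((Real.sqrt (u i) : ℝ) : ℂ) = ((Real.sqrt (u i) : ℝ) : ℂ) from
      Complex.conj_ofReal _, ← Complex.ofReal_mul, Real.mul_self_sqrt (hu i),
      ← Complex.ofReal_div, Complex.ofReal_re]
  rw [e1, e2, e3]

lemma resForm_zero : ResForm (fun _ => (0 : ℝ)) :=
  ⟨0, Fin.elim0, Fin.elim0, fun i => i.elim0, fun i => i.elim0, fun s _ => by simp⟩

/-- the increasing iteration of scalars -/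
noncomputable def itr (al ga nb : ℝ) : ℕ → ℝ
  | 0 => 0
  | j + 1 => al - nb / (ga + itr al ga nb j)

open Pool.Agent.Lib_helper33.Renyi in
lemma itr_facts {al ga nb : ℝ} (_ : 0 < al) (hga : 0 < ga) (hnb0 : 0 ≤ nb)
    (hnb : nb < al * ga) :
    (∀ j, 0 ≤ itr al ga nb j ∧ itr al ga nb j ≤ itr al ga nb (j + 1) ∧
      itr al ga nb j ≤ lpos al ga nb) ∧
    Tendsto (itr al ga nb) atTop (𝓝 (lpos al ga nb)) := by
  set L := lpos al ga nb with hL
  set L' := lpos ga al nb with hL'
  have hLL : L * L' = al * ga - nb := lpos_mul hnb.le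
  have hsub : L - L' = al - ga := lpos_sub al ga nb
  have hL0 : 0 ≤ L := lpos_nonneg hnb.le
  have hL'0 : 0 ≤ L' := lpos_nonneg (by rw [mul_comm]; exact hnb.le)
  have hLLpos : 0 < L * L' := by rw [hLL]; linarith
  have hLpos : 0 < L := lt_of_le_of_ne hL0 (by rintro h; rw [← h] at hLLpos; simp at hLLpos)
  have hL'pos : 0 < L' := lt_of_le_of_ne hL'0 (by rintro h; rw [← h] at hLLpos; simp at hLLpos)
  have hfix : (al - L) * (ga + L) = nb := by
    have e1 : al - L = ga - L' := by linarith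
    have e2 : L = L' + (al - ga) := by linarith
    rw [e1]
    have e3 : (ga - L') * (ga + L) = ga * ga + ga * (L - L') - L * L' := by ring
    rw [e3, hsub, hLL]; ring
  have hfixL : al - nb / (ga + L) = L := by
    rw [← hfix, mul_div_cancel_right₀ _ (by positivity)]; ring
  have hmono : ∀ x y : ℝ, 0 ≤ x → x ≤ y → al - nb / (ga + x) ≤ al - nb / (ga + y) := by
    intro x y hx hxy
    have h1 : nb / (ga + y) ≤ nb / (ga + x) :=
      div_le_div_of_nonneg_left hnb0 (by linarith) (by linarith)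
    linarith
  have h0 : ∀ j, 0 ≤ itr al ga nb j ∧ itr al ga nb j ≤ itr al ga nb (j + 1) := by
    intro j
    induction j with
    | zero =>
      refine ⟨le_refl _, ?_⟩
      change (0 : ℝ) ≤ al - nb / (ga + 0)
      rw [add_zero, sub_nonneg, div_le_iff₀ hga]
      exact hnb.le
    | succ j ih =>
      refine ⟨ih.1.trans ih.2, ?_⟩
      exact hmono _ _ ih.1 ih.2
  have hle : ∀ j, itr al ga nb j ≤ L := by
    intro j
    induction j with
    | zero => exact hL0
    | succ j ih =>
      calc itr al ga nb (j + 1) = al - nb / (ga + itr al ga nb j) := rfl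
        _ ≤ al - nb / (ga + L) := hmono _ _ (h0 j).1 ih
        _ = L := hfixL
  refine ⟨fun j => ⟨(h0 j).1, (h0 j).2, hle j⟩, ?_⟩
  have hmonoSeq : Monotone (itr al ga nb) := monotone_nat_of_le_succ fun j => (h0 j).2
  have hbdd : BddAbove (Set.range (itr al ga nb)) := ⟨L, by rintro _ ⟨j, rfl⟩; exact hle j⟩
  have ht := tendsto_atTop_ciSup hmonoSeq hbdd
  set S := ⨆ i, itr al ga nb i with hS
  have hS0 : 0 ≤ S := le_ciSup hbdd 0 |>.trans' (le_refl _)
  have hSL : S ≤ L := ciSup_le hle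
  have ht1 : Tendsto (fun j => itr al ga nb (j + 1)) atTop (𝓝 S) := (tendsto_add_atTop_iff_nat 1).mpr ht
  have ht2 : Tendsto (fun j => itr al ga nb (j + 1)) atTop (𝓝 (al - nb / (ga + S))) := by
    have : Tendsto (fun j => al - nb / (ga + itr al ga nb j)) atTop (𝓝 (al - nb / (ga + S))) := by
      refine Tendsto.const_sub al (Tendsto.div tendsto_const_nhds (ht.const_add ga) ?_)
      linarith
    exact this
  have hfixS : S = al - nb / (ga + S) := tendsto_nhds_unique ht1 ht2
  have hquad : (al - S) * (ga + S) = nb := by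
    have h1 : al - S = nb / (ga + S) := by linarith
    rw [h1, div_mul_cancel₀ _ (by linarith)]
  have hfac : (S - L) * (S + L') = 0 := by
    have e1 : (S - L) * (S + L') = S * S - S * (L - L') - L * L' := by ring
    rw [e1, hsub, hLL]
    nlinarith
  rcases mul_eq_zero.mp hfac with h1 | h1
  · have : S = L := by linarith
    rw [← this]; exact ht
  · exfalso; linarith

end RES

open RES

theorem res_seq (A : Matrix ι ι ℂ) (hA : A.PosDef) (v w : ι → ℂ)
    (h : LinearIndependent ℂ ![v, w]) :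
    ∃ l : ℕ → ℝ → ℝ, (∀ j, ResForm (l j)) ∧
      (∀ j s, 0 < s → 0 ≤ l j s ∧ l j s ≤ l (j + 1) s ∧
        l j s ≤ lam (form A v v s).re (form A w w s).re (form A v w s)) ∧
      ∀ s, 0 < s → Tendsto (fun j => l j s) atTop
        (𝓝 (lam (form A v v s).re (form A w w s).re (form A v w s))) := by
  have hw0 : w ≠ 0 := by
    have := h.ne_zero 1
    simpa using this
  refine ⟨fun j s => itr (form A v v s).re (form A w w s).re (‖form A v w s‖ ^ 2) j, ?_, ?_, ?_⟩
  · intro j
    induction j with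
    | zero => exact resForm_zero
    | succ j ih => exact resForm_step A hA v w hw0 _ ih
  · intro j s hs
    obtain ⟨-, -, -, -, hst⟩ := form_facts A hA v w s hs.le
    obtain ⟨h1, h2, h3⟩ := hst h
    have := (itr_facts h1 h2 (by positivity) h3).1 j
    rw [lam_eq, Complex.normSq_eq_norm_sq]
    exact this
  · intro s hs
    obtain ⟨-, -, -, -, hst⟩ := form_facts A hA v w s hs.le
    obtain ⟨h1, h2, h3⟩ := hst h
    rw [lam_eq, Complex.normSq_eq_norm_sq]
    exact (itr_facts h1 h2 (by positivity) h3).2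

end Pool.Agent.RC
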